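import Pool.Agent.Helper96.LUR.Free

/-!
# The Lipschitz homeomorphism `F(Y) ≃ ker β × Y`
-/

set_option autoImplicit false

open Filter Topology Set
open scoped ENNReal Cardinal NNReal

namespace Pool.Agent.LUR

/-- The frozen form of admitting an equivalent LUR norm. -/
def Frozen (X : Type) [NormedAddCommGroup X] [NormedSpace ℝ X] : Prop :=
  ∃ N : X → ℝ, (∀ x y : X, N (x + y) ≤ N x + N y) ∧
      (∀ (a : ℝ) (x : X), N (a • x) = |a| * N x) ∧
      (∃ c C : ℝ, 0 < c ∧ 0 < C ∧ ∀ x : X, c * ‖x‖ ≤ N x ∧ N x ≤ C * ‖x‖) ∧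
      (∀ x : X, N x = 1 → ∀ ε : ℝ, 0 < ε → ∃ δ : ℝ, 0 < δ ∧
        ∀ y : X, N y = 1 → 2 - δ < N (x + y) → N (x - y) < ε)

lemma Frozen.snd {K Y : Type} [NormedAddCommGroup K] [NormedSpace ℝ K] [NormedAddCommGroup Y]
    [NormedSpace ℝ Y] (h : Frozen (K × Y)) : Frozen Y := by
  obtain ⟨N, h1, h2, ⟨c, C, hc, hC, h3⟩, h4⟩ := h
  refine ⟨fun y => N (0, y), ?_, ?_, ⟨c, C, hc, hC, ?_⟩, ?_⟩
  · intro x y
    have := h1 (0, x) (0, y)
    simpa using this
  · intro a x
    have := h2 a (0, x)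
    simpa using this
  · intro x
    have := h3 (0, x)
    simpa [Prod.norm_def] using this
  · intro x hx ε hε
    obtain ⟨δ, hδ, h5⟩ := h4 (0, x) hx ε hε
    refine ⟨δ, hδ, fun y hy hxy => ?_⟩
    have := h5 (0, y) hy (by simpa using hxy)
    simpa using this

section

variable {T : Type} (S : Submodule ℝ (LI T))

/-- coordinate evaluation as an element of `Kh` -/
def evK (u : T) : Kh S :=
  ⟨fun y => (y : LI T) u, by
    constructor
    · apply LipschitzWith.of_dist_le_mul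
      intro y z
      rw [Real.dist_eq, dist_eq_norm]
      have := LI.abs_le ((y : LI T) - (z : LI T)) u
      rw [LI.sub_apply] at this
      simpa using this
    · rfl⟩

/-- the barycenter map on the whole `ℓ_∞(Kh S)` -/
noncomputable def bary : LI (Kh S) →L[ℝ] LI T :=
  LinearMap.mkContinuous
    { toFun := fun Φ => mkLI (fun u => Φ (evK S u)) ‖Φ‖ (fun u => LI.abs_le Φ _)
      map_add' := fun Φ Ψ => rfl
      map_smul' := fun c Φ => rfl }
    1 (fun Φ => by
      rw [one_mul]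
      apply LI.norm_le _ (norm_nonneg _)
      intro u
      exact LI.abs_le Φ _)

lemma bary_apply (Φ : LI (Kh S)) (u : T) : bary S Φ u = Φ (evK S u) := rfl

lemma bary_dl (y : S) : bary S (dl y) = y := by
  ext u
  rfl

lemma norm_bary_le (Φ : LI (Kh S)) : ‖bary S Φ‖ ≤ ‖Φ‖ := by
  apply LI.norm_le _ (norm_nonneg _)
  intro u
  exact LI.abs_le Φ _

variable {S}

lemma bary_mem (hS : IsClosed (S : Set (LI T))) {x : LI (Kh S)} (hx : x ∈ XA (univ : Set S)) :
    bary S x ∈ S := by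
  have : XA (univ : Set S) ≤ S.comap ((bary S : LI (Kh S) →L[ℝ] LI T) : LI (Kh S) →ₗ[ℝ] LI T) := by
    apply XA_le
    · exact hS.preimage (bary S).continuous
    · intro y _
      rw [Submodule.mem_comap]
      change bary S (dl y) ∈ S
      rw [bary_dl]
      exact y.2
  exact this hx

/-- the barycenter map `F(S) → S` -/
noncomputable def bY (hS : IsClosed (S : Set (LI T))) : XA (univ : Set S) →L[ℝ] S :=
  LinearMap.mkContinuous
    { toFun := fun μ => ⟨bary S μ, bary_mem hS μ.2⟩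
      map_add' := fun μ ν => by
        ext1
        simp
      map_smul' := fun c μ => by
        ext1
        simp }
    1 (fun μ => by
      rw [one_mul]
      exact norm_bary_le S μ)

lemma norm_bY_le (hS : IsClosed (S : Set (LI T))) (μ : XA (univ : Set S)) :
    ‖bY hS μ‖ ≤ ‖μ‖ := norm_bary_le S μ

/-- the canonical embedding `S → F(S)` -/
noncomputable def Dl (y : S) : XA (univ : Set S) := ⟨dl y, dl_mem_XA (mem_univ y)⟩

lemma bY_Dl (hS : IsClosed (S : Set (LI T))) (y : S) : bY hS (Dl y) = y := by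
  apply Subtype.ext
  exact bary_dl S y

lemma norm_Dl_sub_le (y z : S) : ‖Dl y - Dl z‖ ≤ ‖y - z‖ := norm_dl_sub_le y z

/-- the Lipschitz homeomorphism -/
noncomputable def homeo (hS : IsClosed (S : Set (LI T))) :
    XA (univ : Set S) ≃ (LinearMap.ker (bY hS : XA (univ : Set S) →ₗ[ℝ] S)) × S where
  toFun μ := (⟨μ - Dl (bY hS μ), by
    rw [LinearMap.mem_ker]
    change bY hS (μ - Dl (bY hS μ)) = 0
    rw [(bY hS).map_sub, bY_Dl, sub_self]⟩, bY hS μ)
  invFun p := (p.1 : XA (univ : Set S)) + Dl p.2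
  left_inv μ := by simp
  right_inv p := by
    have h1 : bY hS (p.1 : XA (univ : Set S)) = 0 := LinearMap.mem_ker.1 p.1.2
    have h2 : bY hS ((p.1 : XA (univ : Set S)) + Dl p.2) = p.2 := by
      rw [(bY hS).map_add, h1, bY_Dl, zero_add]
    apply Prod.ext
    · apply Subtype.ext
      change (p.1 : XA (univ : Set S)) + Dl p.2 - Dl (bY hS ((p.1 : XA (univ : Set S)) + Dl p.2)) = p.1
      rw [h2]
      abel
    · exact h2

lemma homeo_lip (hS : IsClosed (S : Set (LI T))) : LipschitzWith 2 (homeo hS) := by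
  apply LipschitzWith.of_dist_le_mul
  intro μ ν
  rw [dist_eq_norm, dist_eq_norm, Prod.norm_def]
  have hb : ‖bY hS μ - bY hS ν‖ ≤ ‖μ - ν‖ := by
    rw [← (bY hS).map_sub]; exact norm_bY_le hS _
  have h2 : ((2 : ℝ≥0) : ℝ) = 2 := rfl
  rw [h2]
  apply max_le
  · change ‖(μ - Dl (bY hS μ)) - (ν - Dl (bY hS ν))‖ ≤ _
    have h1 : (μ - Dl (bY hS μ)) - (ν - Dl (bY hS ν))
        = (μ - ν) - (Dl (bY hS μ) - Dl (bY hS ν)) := by abel
    rw [h1]
    refine (norm_sub_le _ _).trans ?_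
    have := norm_Dl_sub_le (bY hS μ) (bY hS ν)
    linarith
  · change ‖bY hS μ - bY hS ν‖ ≤ _
    have := norm_nonneg (μ - ν)
    linarith

lemma homeo_symm_lip (hS : IsClosed (S : Set (LI T))) : LipschitzWith 2 (homeo hS).symm := by
  apply LipschitzWith.of_dist_le_mul
  intro p q
  rw [dist_eq_norm, dist_eq_norm, Prod.norm_def]
  have h2 : ((2 : ℝ≥0) : ℝ) = 2 := rfl
  rw [h2]
  change ‖((p.1 : XA (univ : Set S)) + Dl p.2) - ((q.1 : XA (univ : Set S)) + Dl q.2)‖ ≤ _
  have h1 : ((p.1 : XA (univ : Set S)) + Dl p.2) - ((q.1 : XA (univ : Set S)) + Dl q.2)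
      = ((p.1 : XA (univ : Set S)) - q.1) + (Dl p.2 - Dl q.2) := by abel
  rw [h1]
  have h3 := norm_Dl_sub_le p.2 q.2
  have h4 : ‖(p.1 : XA (univ : Set S)) - q.1‖ ≤ max ‖(p - q).1‖ ‖(p - q).2‖ := le_max_left _ _
  have h5 : ‖p.2 - q.2‖ ≤ max ‖(p - q).1‖ ‖(p - q).2‖ := le_max_right _ _
  exact (norm_add_le _ _).trans ((add_le_add h4 (h3.trans h5)).trans_eq (two_mul _).symm)

/-- If `F(S)` is LUR renormable and `S` is not, then LUR renormability is not a Lipschitz
invariant. -/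
theorem final_of (hS : IsClosed (S : Set (LI T))) (h1 : Frozen (XA (univ : Set S)))
    (h2 : ¬ Frozen S) :
    ¬ (∀ (X Y : Type) [NormedAddCommGroup X] [NormedSpace ℝ X] [CompleteSpace X]
    [NormedAddCommGroup Y] [NormedSpace ℝ Y] [CompleteSpace Y],
    (∃ f : X ≃ Y, ∃ K₁ K₂ : NNReal, LipschitzWith K₁ f ∧ LipschitzWith K₂ f.symm) →
    Frozen X → Frozen Y) := by
  intro h
  have c1 : CompleteSpace S := hS.completeSpace_coe
  have c2 : CompleteSpace (XA (univ : Set S)) := (XA_closed _).completeSpace_coe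
  have hk : IsClosed (LinearMap.ker (bY hS : XA (univ : Set S) →ₗ[ℝ] S) : Set (XA (univ : Set S))) :=
    ContinuousLinearMap.isClosed_ker (bY hS)
  have c3 : CompleteSpace (LinearMap.ker (bY hS : XA (univ : Set S) →ₗ[ℝ] S)) :=
    hk.completeSpace_coe
  have := h (XA (univ : Set S)) ((LinearMap.ker (bY hS : XA (univ : Set S) →ₗ[ℝ] S)) × S)
    ⟨homeo hS, 2, 2, homeo_lip hS, homeo_symm_lip hS⟩ h1
  exact h2 this.snd

end

end Pool.Agent.LUR
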