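import Pool.Agent.Helper96.LUR.Space

/-!
# Cardinal induction: all `Xs U` are LUR renormable
-/

set_option autoImplicit false

open Filter Topology Set
open scoped ENNReal Cardinal

namespace Pool.Agent.LUR

lemma LURF.comp {X Y : Type*} [AddCommGroup X] [Module ℝ X] [AddCommGroup Y] [Module ℝ Y]
    {F : X → ℝ} (hF : LURF F) (L : Y →ₗ[ℝ] X) : LURF (fun y => F (L y)) := by
  intro x l h
  have h1 : Tendsto (fun z => defect F (L x) z) (map L l) (𝓝 0) := by
    rw [tendsto_map'_iff]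
    refine h.congr fun y => ?_
    simp [defect, _root_.map_add]
  have h2 := hF (L x) (map L l) h1
  rw [tendsto_map'_iff] at h2
  refine h2.congr fun y => ?_
  simp [_root_.map_sub]

lemma LURF.const_mul {X : Type*} [AddCommGroup X] [Module ℝ X]
    {F : X → ℝ} (hF : LURF F) {c : ℝ} (hc : 0 < c) : LURF (fun y => c * F y) := by
  intro x l h
  have h1 : Tendsto (fun z => defect F x z) l (𝓝 0) := by
    have := h.const_mul c⁻¹
    rw [mul_zero] at this
    refine this.congr fun y => ?_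
    unfold defect
    field_simp
  have h2 := (hF x l h1).const_mul c
  simpa using h2

section approx

variable {E : Type*} [NormedAddCommGroup E] [NormedSpace ℝ E] {T : Type*} [PartialOrder T]
  {J : Type*} [LinearOrder J]

/-- union of the lower cones of the elements indexed by `s` -/
def Wn (e : J → T) (s : Set J) : Set T := ⋃ j ∈ s, Iic (e j)

omit [LinearOrder J] in
lemma mem_Wn {e : J → T} {s : Set J} {t : T} : t ∈ Wn e s ↔ ∃ j ∈ s, t ≤ e j := by
  simp [Wn]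

omit [LinearOrder J] in
lemma Wn_lower (e : J → T) (s : Set J) : IsLowerSet (Wn e s) := by
  intro a b hba ha
  rw [mem_Wn] at ha ⊢
  obtain ⟨j, hj, h⟩ := ha
  exact ⟨j, hj, hba.trans h⟩

omit [LinearOrder J] in
lemma Wn_mono (e : J → T) {s s' : Set J} (h : s ⊆ s') : Wn e s ⊆ Wn e s' := by
  intro a ha
  rw [mem_Wn] at ha ⊢
  obtain ⟨j, hj, h'⟩ := ha
  exact ⟨j, h hj, h'⟩

variable (P : Set T → E →L[ℝ] E) (X : Set E)
    (hPn : ∀ V x, ‖P V x‖ ≤ 2 * ‖x‖) (hP0 : ∀ x ∈ X, P ∅ x = 0)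
    (happ : ∀ x ∈ X, ∀ ε > 0, ∃ x' ∈ X, ‖x - x'‖ < ε ∧ ∃ S : Finset T,
      ∀ V V', IsLowerSet V → IsLowerSet V' → (∀ s ∈ S, s ∈ V ↔ s ∈ V') → P V x' = P V' x')

include hPn hP0 happ

open Classical in
lemma approx_step (e : J → T) (x : E) (hx : x ∈ X) (s : Set J)
    (ih : ∀ i ∈ s, ∀ ε > 0, ∃ B : Finset J, (↑B : Set J) ⊆ Iio i ∧
      ‖P (Wn e (Iio i)) x - ∑ j ∈ B, (P (Wn e (Iic j)) x - P (Wn e (Iio j)) x)‖ < ε)
    (hs : IsLowerSet s) :
    ∀ ε > 0, ∃ B : Finset J, (↑B : Set J) ⊆ s ∧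
      ‖P (Wn e s) x - ∑ j ∈ B, (P (Wn e (Iic j)) x - P (Wn e (Iio j)) x)‖ < ε := by
  intro ε hε
  obtain ⟨x', hx'X, hx', S, hS⟩ := happ x hx (ε / 8) (by positivity)
  have hle : ∀ V : Set T, ‖P V x - P V x'‖ ≤ ε / 4 := by
    intro V
    rw [← _root_.map_sub]
    refine (hPn V _).trans ?_
    linarith
  by_cases hne : ∃ σ ∈ S, σ ∈ Wn e s
  · -- nonempty case
    set S' := S.filter (fun σ => σ ∈ Wn e s) with hS'
    have hS'ne : S'.Nonempty := by
      obtain ⟨σ, h1, h2⟩ := hne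
      exact ⟨σ, Finset.mem_filter.2 ⟨h1, h2⟩⟩
    have hch : ∀ σ : T, ∃ j : J, σ ∈ Wn e s → j ∈ s ∧ σ ≤ e j := by
      intro σ
      by_cases h : σ ∈ Wn e s
      · obtain ⟨j, hj, h'⟩ := mem_Wn.1 h
        exact ⟨j, fun _ => ⟨hj, h'⟩⟩
      · obtain ⟨σ₀, -, h2⟩ := hne
        obtain ⟨j, -, -⟩ := mem_Wn.1 h2
        exact ⟨j, fun h' => absurd h' h⟩
    choose js hjs using hch
    obtain ⟨σ₁, hσ₁, hmax⟩ := Finset.exists_max_image S' js hS'ne
    have hσ₁s := (Finset.mem_filter.1 hσ₁).2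
    set i := js σ₁ with hi
    have his : i ∈ s := (hjs σ₁ hσ₁s).1
    have hIic : Iic i ⊆ s := fun j hj => hs hj his
    have heq : P (Wn e s) x' = P (Wn e (Iic i)) x' := by
      apply hS _ _ (Wn_lower e s) (Wn_lower e _)
      intro σ hσ
      constructor
      · intro h
        exact mem_Wn.2 ⟨js σ, hmax σ (Finset.mem_filter.2 ⟨hσ, h⟩), (hjs σ h).2⟩
      · intro h
        exact Wn_mono e hIic h
    obtain ⟨B', hB', hB'n⟩ := ih i his (ε / 2) (by positivity)
    have hiB' : i ∉ B' := fun h => lt_irrefl i (hB' h)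
    refine ⟨insert i B', ?_, ?_⟩
    · intro j hj
      rcases Finset.mem_insert.1 (Finset.mem_coe.1 hj) with rfl | hj
      · exact his
      · exact hs (le_of_lt (hB' hj)) his
    · rw [Finset.sum_insert hiB']
      set Sg := ∑ j ∈ B', (P (Wn e (Iic j)) x - P (Wn e (Iio j)) x) with hSg
      have h1 : P (Wn e s) x - (P (Wn e (Iic i)) x - P (Wn e (Iio i)) x + Sg)
          = (P (Wn e s) x - P (Wn e s) x') - (P (Wn e (Iic i)) x - P (Wn e (Iic i)) x')
            + (P (Wn e (Iio i)) x - Sg) := by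
        rw [heq]; abel
      rw [h1]
      have h2 := norm_add_le ((P (Wn e s) x - P (Wn e s) x') - (P (Wn e (Iic i)) x - P (Wn e (Iic i)) x'))
        (P (Wn e (Iio i)) x - Sg)
      have h3 := norm_sub_le (P (Wn e s) x - P (Wn e s) x') (P (Wn e (Iic i)) x - P (Wn e (Iic i)) x')
      have h4 := hle (Wn e s)
      have h5 := hle (Wn e (Iic i))
      linarith
  · push Not at hne
    refine ⟨∅, by simp, ?_⟩
    have heq : P (Wn e s) x' = 0 := by
      rw [← hP0 x' hx'X]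
      apply hS _ _ (Wn_lower e s) isLowerSet_empty
      intro σ hσ
      simp [hne σ hσ]
    have h4 := hle (Wn e s)
    rw [heq, sub_zero] at h4
    simp only [Finset.sum_empty, sub_zero]
    linarith

lemma approx_all [WellFoundedLT J] (e : J → T) (x : E) (hx : x ∈ X) (s : Set J)
    (hs : IsLowerSet s) :
    ∀ ε > 0, ∃ B : Finset J, (↑B : Set J) ⊆ s ∧
      ‖P (Wn e s) x - ∑ j ∈ B, (P (Wn e (Iic j)) x - P (Wn e (Iio j)) x)‖ < ε := by
  apply approx_step P X hPn hP0 happ e x hx s _ hs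
  intro i _
  induction i using WellFoundedLT.induction with
  | ind i ih =>
    apply approx_step P X hPn hP0 happ e x hx (Iio i) _ (isLowerSet_Iio i)
    intro j hj
    exact ih j hj (hs (le_of_lt hj) ‹_›)

omit hP0 in
lemma finite_large (e : J → T) (x : E) (hx : x ∈ X) (δ : ℝ) (hδ : 0 < δ) :
    {i : J | δ ≤ ‖P (Wn e (Iic i)) x - P (Wn e (Iio i)) x‖}.Finite := by
  obtain ⟨x', hx'X, hx', S, hS⟩ := happ x hx (δ / 8) (by positivity)
  have hsub : {i : J | δ ≤ ‖P (Wn e (Iic i)) x - P (Wn e (Iio i)) x‖} ⊆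
      ⋃ σ ∈ S, {i : J | σ ∈ Wn e (Iic i) ∧ σ ∉ Wn e (Iio i)} := by
    intro i hi
    by_contra hcon
    simp only [mem_iUnion, not_exists] at hcon
    have heq : P (Wn e (Iic i)) x' = P (Wn e (Iio i)) x' := by
      apply hS _ _ (Wn_lower e _) (Wn_lower e _)
      intro σ hσ
      constructor
      · intro h
        by_contra h'
        exact hcon σ hσ ⟨h, h'⟩
      · intro h
        exact Wn_mono e (fun j hj => le_of_lt hj) h
    have h1 : P (Wn e (Iic i)) x - P (Wn e (Iio i)) x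
        = P (Wn e (Iic i)) (x - x') - P (Wn e (Iio i)) (x - x') := by
      rw [_root_.map_sub, _root_.map_sub, heq]; abel
    have h2 := norm_sub_le (P (Wn e (Iic i)) (x - x')) (P (Wn e (Iio i)) (x - x'))
    rw [← h1] at h2
    have h3 := hPn (Wn e (Iic i)) (x - x')
    have h4 := hPn (Wn e (Iio i)) (x - x')
    have h5 : δ ≤ ‖P (Wn e (Iic i)) x - P (Wn e (Iio i)) x‖ := hi
    linarith
  refine Finite.subset (Finite.biUnion (Finset.finite_toSet S) ?_) hsub
  intro σ _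
  apply Set.Subsingleton.finite
  intro i hi i' hi'
  rcases lt_trichotomy i i' with h | h | h
  · exfalso
    apply hi'.2
    refine Wn_mono e ?_ hi.1
    intro j hj
    exact lt_of_le_of_lt hj h
  · exact h
  · exfalso
    apply hi.2
    refine Wn_mono e ?_ hi'.1
    intro j hj
    exact lt_of_le_of_lt hj h

end approx

/-- If `Xs V` is LUR renormable for all `V` of smaller cardinality, then so is `Xs U`. -/
theorem LURn_step {E : Type} [NormedAddCommGroup E] [NormedSpace ℝ E]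
    (hDecomp : ∀ (X : Type) [NormedAddCommGroup X] [NormedSpace ℝ X] (I : Type)
      (F : I → X → ℝ) (R : I → X →ₗ[ℝ] X) (M : ℝ),
      (∀ i, QF (F i)) → (∀ i x, F i x ≤ M * ‖x‖ ^ 2) → (∀ i x, ‖R i x‖ ≤ M * ‖x‖) →
      (∀ i, ∃ C : ℝ, ∀ x, ‖R i x‖ ^ 2 ≤ C * F i x) →
      (∀ x, ∀ δ > 0, {i | δ ≤ F i x}.Finite) → (∀ i, LURF (F i)) →
      (∀ x, ∀ ε > 0, ∃ B : Finset I, ‖x - ∑ i ∈ B, R i x‖ < ε) → LURn X)
    {T : Type} [PartialOrder T]
    (P : Set T → E →L[ℝ] E) (Xs : Set T → Submodule ℝ E)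
    (hmono : ∀ V U, V ⊆ U → Xs V ≤ Xs U)
    (hP : ∀ V, IsLowerSet V → ∀ x ∈ Xs univ, P V x ∈ Xs V)
    (hPid : ∀ V, IsLowerSet V → ∀ x ∈ Xs V, P V x = x)
    (hPn : ∀ V x, ‖P V x‖ ≤ 2 * ‖x‖) (hP0 : ∀ x ∈ Xs univ, P ∅ x = 0)
    (happ : ∀ x ∈ Xs univ, ∀ ε > 0, ∃ x' ∈ Xs univ, ‖x - x'‖ < ε ∧ ∃ S : Finset T,
      ∀ V V', IsLowerSet V → IsLowerSet V' → (∀ s ∈ S, s ∈ V ↔ s ∈ V') → P V x' = P V' x')
    (U : Set T) (hU : IsLowerSet U) {J : Type} [LinearOrder J] [WellFoundedLT J]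
    (e : J → T) (he : ∀ t, t ∈ U ↔ t ∈ Wn e univ)
    (ih : ∀ i, LURn (Xs (Wn e (Iic i)))) : LURn (Xs U) := by
  classical
  have hUe : U = Wn e univ := Set.ext he
  have hleU : ∀ s : Set J, Xs (Wn e s) ≤ Xs U := fun s =>
    hmono _ _ (hUe ▸ Wn_mono e (subset_univ s))
  have hUuniv : Xs U ≤ Xs univ := hmono _ _ (subset_univ U)
  choose F hQF hbd hL using ih
  choose c C hc hC hcC using hbd
  have hQmem : ∀ (i : J) (x : Xs U), P (Wn e (Iic i)) x - P (Wn e (Iio i)) x ∈ Xs (Wn e (Iic i)) := by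
    intro i x
    apply Submodule.sub_mem
    · exact hP _ (Wn_lower e _) _ (hUuniv x.2)
    · exact hmono _ _ (Wn_mono e fun j hj => le_of_lt hj) (hP _ (Wn_lower e _) _ (hUuniv x.2))
  let Q : ∀ i : J, Xs U →ₗ[ℝ] Xs (Wn e (Iic i)) := fun i =>
    LinearMap.codRestrict (Xs (Wn e (Iic i)))
      (((P (Wn e (Iic i)) - P (Wn e (Iio i)) : E →L[ℝ] E) : E →ₗ[ℝ] E).comp (Xs U).subtype)
      (fun x => by simpa using hQmem i x)
  have hQc : ∀ i x, ((Q i x : Xs (Wn e (Iic i))) : E)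
      = P (Wn e (Iic i)) x - P (Wn e (Iio i)) x := by
    intro i x
    simp [Q]
  have hQn : ∀ i x, ‖Q i x‖ ≤ 4 * ‖x‖ := by
    intro i x
    rw [Submodule.coe_norm (Q i x), hQc, Submodule.coe_norm x]
    have h2 := norm_sub_le (P (Wn e (Iic i)) (x : E)) (P (Wn e (Iio i)) (x : E))
    have h3 := hPn (Wn e (Iic i)) (x : E)
    have h4 := hPn (Wn e (Iio i)) (x : E)
    linarith
  let R : J → Xs U →ₗ[ℝ] Xs U := fun i => (Submodule.inclusion (hleU (Iic i))).comp (Q i)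
  have hRc : ∀ i x, ((R i x : Xs U) : E) = P (Wn e (Iic i)) x - P (Wn e (Iio i)) x := by
    intro i x
    rw [← hQc]
    rfl
  have hRn : ∀ i x, ‖R i x‖ = ‖Q i x‖ := by
    intro i x
    rw [Submodule.coe_norm (R i x), Submodule.coe_norm (Q i x), hRc, hQc]
  apply hDecomp (Xs U) J (fun i x => (C i)⁻¹ * F i (Q i x)) R 16
  · intro i
    exact ((hQF i).comp (Q i)).const_mul (inv_pos.2 (hC i)).le
  · intro i x
    have h1 := (hcC i (Q i x)).2
    have h2 : ‖Q i x‖ ^ 2 ≤ (4 * ‖x‖) ^ 2 := pow_le_pow_left₀ (norm_nonneg _) (hQn i x) 2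
    rw [inv_mul_le_iff₀ (hC i)]
    refine h1.trans ?_
    apply mul_le_mul_of_nonneg_left _ (hC i).le
    linarith
  · intro i x
    rw [hRn]
    have := hQn i x
    have := norm_nonneg x
    linarith
  · intro i
    refine ⟨(c i)⁻¹ * C i, fun x => ?_⟩
    rw [hRn]
    have h1 := (hcC i (Q i x)).1
    have h2 : (c i)⁻¹ * C i * ((C i)⁻¹ * F i (Q i x)) = (c i)⁻¹ * F i (Q i x) := by
      have := (hC i).ne'
      field_simp
    rw [h2, ← div_eq_inv_mul, le_div_iff₀ (hc i), mul_comm]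
    exact h1
  · intro x δ hδ
    have hfin := finite_large P (Xs univ : Set E) hPn happ e (x : E) (hUuniv x.2) (Real.sqrt δ)
      (Real.sqrt_pos.2 hδ)
    refine hfin.subset ?_
    intro i hi
    have hi' : δ ≤ (C i)⁻¹ * F i (Q i x) := hi
    have h1 := (hcC i (Q i x)).2
    have h3 : (C i)⁻¹ * F i (Q i x) ≤ ‖Q i x‖ ^ 2 := by
      rw [inv_mul_le_iff₀ (hC i)]
      exact h1
    change Real.sqrt δ ≤ ‖P (Wn e (Iic i)) (x : E) - P (Wn e (Iio i)) (x : E)‖
    rw [← hQc, ← Submodule.coe_norm, Real.sqrt_le_iff]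
    exact ⟨norm_nonneg _, hi'.trans h3⟩
  · intro i
    exact ((hL i).comp (Q i)).const_mul (inv_pos.2 (hC i))
  · intro x ε hε
    obtain ⟨B, -, hB⟩ := approx_all P (Xs univ : Set E) hPn hP0 happ e (x : E) (hUuniv x.2) univ
      isLowerSet_univ ε hε
    refine ⟨B, ?_⟩
    rw [Submodule.coe_norm]
    have h1 : P (Wn e univ) (x : E) = x := by
      rw [← hUe]
      exact hPid U hU _ x.2
    rw [h1] at hB
    have h2 : ((x - ∑ i ∈ B, R i x : Xs U) : E)
        = x - ∑ j ∈ B, (P (Wn e (Iic j)) (x : E) - P (Wn e (Iio j)) (x : E)) := by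
      rw [Submodule.coe_sub, Submodule.coe_sum]
      congr 1
    rw [h2]
    exact hB

/-- The cardinal induction. -/
theorem LURn_induct' {E : Type} [NormedAddCommGroup E] [NormedSpace ℝ E] [CompleteSpace E]
    (hDecomp : ∀ (X : Type) [NormedAddCommGroup X] [NormedSpace ℝ X] (I : Type)
      (F : I → X → ℝ) (R : I → X →ₗ[ℝ] X) (M : ℝ),
      (∀ i, QF (F i)) → (∀ i x, F i x ≤ M * ‖x‖ ^ 2) → (∀ i x, ‖R i x‖ ≤ M * ‖x‖) →
      (∀ i, ∃ C : ℝ, ∀ x, ‖R i x‖ ^ 2 ≤ C * F i x) →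
      (∀ x, ∀ δ > 0, {i | δ ≤ F i x}.Finite) → (∀ i, LURF (F i)) →
      (∀ x, ∀ ε > 0, ∃ B : Finset I, ‖x - ∑ i ∈ B, R i x‖ < ε) → LURn X)
    (hKadec : ∀ (X : Type) [NormedAddCommGroup X] [NormedSpace ℝ X] [CompleteSpace X]
      [TopologicalSpace.SeparableSpace X], LURn X)
    {T : Type} [PartialOrder T] (hT : ∀ t : T, (Iic t).Countable)
    (P : Set T → E →L[ℝ] E) (Xs : Set T → Submodule ℝ E)
    (hclosed : ∀ V, IsClosed (Xs V : Set E))
    (hmono : ∀ V U, V ⊆ U → Xs V ≤ Xs U)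
    (hsep : ∀ V : Set T, V.Countable → TopologicalSpace.IsSeparable (Xs V : Set E))
    (hP : ∀ V, IsLowerSet V → ∀ x ∈ Xs univ, P V x ∈ Xs V)
    (hPid : ∀ V, IsLowerSet V → ∀ x ∈ Xs V, P V x = x)
    (hPn : ∀ V x, ‖P V x‖ ≤ 2 * ‖x‖) (hP0 : ∀ x ∈ Xs univ, P ∅ x = 0)
    (happ : ∀ x ∈ Xs univ, ∀ ε > 0, ∃ x' ∈ Xs univ, ‖x - x'‖ < ε ∧ ∃ S : Finset T,
      ∀ V V', IsLowerSet V → IsLowerSet V' → (∀ s ∈ S, s ∈ V ↔ s ∈ V') → P V x' = P V' x')
    (U : Set T) (hU : IsLowerSet U) : LURn (Xs U) := by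
  have main : ∀ κ : Cardinal.{0}, ∀ U : Set T, IsLowerSet U → #U = κ → LURn (Xs U) := by
    intro κ
    induction κ using WellFoundedLT.induction with
    | ind κ ih =>
      intro U hU hUκ
      by_cases hc : κ ≤ ℵ₀
      · have hUc : U.Countable := by
          rw [← Cardinal.le_aleph0_iff_set_countable, hUκ]
          exact hc
        have hsp := hsep U hUc
        have : TopologicalSpace.SeparableSpace (Xs U) := hsp.separableSpace
        have : CompleteSpace (Xs U) := (hclosed U).completeSpace_coe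
        exact hKadec (Xs U)
      · push Not at hc
        have hcard : #κ.ord.ToType = #U := by rw [Cardinal.mk_ord_toType, hUκ]
        obtain ⟨eqv⟩ := Cardinal.eq.1 hcard
        set e : κ.ord.ToType → T := fun j => (eqv j : T) with he
        have hWU : ∀ s : Set κ.ord.ToType, Wn e s ⊆ U := by
          intro s t ht
          obtain ⟨j, -, hj⟩ := mem_Wn.1 ht
          exact hU hj (eqv j).2
        refine LURn_step hDecomp P Xs hmono hP hPid hPn hP0 happ U hU e ?_ ?_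
        · intro t
          constructor
          · intro ht
            refine mem_Wn.2 ⟨eqv.symm ⟨t, ht⟩, mem_univ _, ?_⟩
            simp [he]
          · intro ht
            exact hWU _ ht
        · intro i
          refine ih _ ?_ (Wn e (Iic i)) (Wn_lower e _) rfl
          have h1 : #(Iio i) < κ := by
            have := Cardinal.mk_Iio_lt i (by simp)
            simpa using this
          have h2 : #(Iic i) < κ := by
            have h3 : (Iic i : Set κ.ord.ToType) = insert i (Iio i) := by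
              ext j; simp [le_iff_eq_or_lt]
            rw [h3]
            refine lt_of_le_of_lt Cardinal.mk_insert_le ?_
            exact Cardinal.add_lt_of_lt hc.le h1 (Cardinal.one_lt_aleph0.trans hc)
          have h4 : #(Wn e (Iic i)) ≤ #(Iic i) * ℵ₀ := by
            refine (Cardinal.mk_biUnion_le (fun j => Iic (e j)) (Iic i)).trans ?_
            apply mul_le_mul_right
            apply ciSup_le'
            intro j
            exact Cardinal.le_aleph0_iff_set_countable.2 (hT _)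
          exact h4.trans_lt (Cardinal.mul_lt_of_lt hc.le h2 hc)
  exact main _ U hU rfl

end Pool.Agent.LUR
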