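import Pool.Agent.Helper96.LUR.Retract
import Pool.Agent.Helper96.LUR.Induct
import Pool.Agent.Helper96.LUR.Homeo

/-!
# The free space over `Y` is LUR renormable
-/

set_option autoImplicit false

open Filter Topology Set
open scoped ENNReal Cardinal NNReal

namespace Pool.Agent.LUR

section

variable {T : Type} [SemilatticeInf T]

lemma YV_closed (V : Set T) : IsClosed (YV V : Set (LI T)) :=
  Submodule.isClosed_topologicalClosure _

lemma YV_mono {V U : Set T} (h : V ⊆ U) : YV V ≤ YV U :=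
  Submodule.topologicalClosure_mono (Submodule.span_mono (image_mono h))

lemma YV_separable {V : Set T} (h : V.Countable) :
    TopologicalSpace.IsSeparable (YV V : Set (LI T)) := by
  have h1 : TopologicalSpace.IsSeparable (Submodule.span ℝ (ft '' V) : Set (LI T)) :=
    (h.image ft).isSeparable.span
  exact h1.closure

variable (T) in
/-- the space `Y` -/
noncomputable abbrev YT : Submodule ℝ (LI T) := YV (univ : Set T)

/-- the retraction on `Y` -/
noncomputable def rY {V : Set T} (hV : IsLowerSet V) (y : YT T) : YT T :=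
  ⟨rV V (y : LI T), YV_mono (subset_univ V) (rV_mem hV y.2)⟩

lemma rY_coe {V : Set T} (hV : IsLowerSet V) (y : YT T) : ((rY hV y : YT T) : LI T) = rV V y := rfl

lemma norm_rY_sub_le {V : Set T} (hV : IsLowerSet V) (y z : YT T) :
    ‖rY hV y - rY hV z‖ ≤ 2 * ‖y - z‖ := norm_rV_sub_le V (y : LI T) (z : LI T)

lemma rY_zero {V : Set T} (hV : IsLowerSet V) : rY hV (0 : YT T) = 0 := by
  apply Subtype.ext
  exact rV_zero V

open Classical in
/-- the projections `P_V` -/
noncomputable def PV (V : Set T) : LI (Kh (YT T)) →L[ℝ] LI (Kh (YT T)) :=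
  if h : IsLowerSet V then lin (rY h) (norm_rY_sub_le h) (rY_zero h) else 0

lemma PV_eq {V : Set T} (h : IsLowerSet V) :
    PV V = lin (rY h) (norm_rY_sub_le h) (rY_zero h) := dif_pos h

/-- the sets `{y ∈ Y : y ∈ Y_V}` -/
def AV (V : Set T) : Set (YT T) := {y | (y : LI T) ∈ YV V}

/-- simple functions -/
def A0 (T : Type) [SemilatticeInf T] : Set (YT T) :=
  {y | (y : LI T) ∈ Submodule.span ℝ (ft '' (univ : Set T))}

lemma AV_univ : AV (univ : Set T) = univ := by
  ext y
  exact ⟨fun _ => mem_univ y, fun _ => y.2⟩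

lemma dense_A0 : closure (A0 T) = univ := by
  rw [eq_univ_iff_forall]
  intro y
  rw [Metric.mem_closure_iff]
  intro ε hε
  have hy : (y : LI T) ∈ closure (Submodule.span ℝ (ft '' (univ : Set T)) : Set (LI T)) := y.2
  rw [Metric.mem_closure_iff] at hy
  obtain ⟨b, hb, hyb⟩ := hy ε hε
  exact ⟨⟨b, Submodule.le_topologicalClosure _ hb⟩, hb, hyb⟩

lemma XA_univ_le : XA (univ : Set (YT T)) ≤ XA (A0 T) := by
  apply XA_le (XA_closed _)
  intro y _
  have h1 : IsClosed {y : YT T | dl y ∈ XA (A0 T)} := (XA_closed (A0 T)).preimage continuous_dl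
  have h2 : A0 T ⊆ {y : YT T | dl y ∈ XA (A0 T)} := fun y hy => dl_mem_XA hy
  have h3 := closure_minimal h2 h1
  rw [dense_A0] at h3
  exact h3 (mem_univ y)

open Classical in
lemma exists_S {x : LI (Kh (YT T))} (hx : x ∈ Submodule.span ℝ (dl '' A0 T)) :
    ∃ S : Finset T, ∀ V V' : Set T, IsLowerSet V → IsLowerSet V' →
      (∀ s ∈ S, (s ∈ V ↔ s ∈ V')) → PV V x = PV V' x := by
  induction hx using Submodule.span_induction with
  | mem z hz =>
    obtain ⟨y, hy, rfl⟩ := hz
    obtain ⟨S, hS⟩ := rV_dep hy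
    refine ⟨S, fun V V' hV hV' h => ?_⟩
    rw [PV_eq hV, PV_eq hV', lin_dl, lin_dl]
    congr 1
    apply Subtype.ext
    rw [rY_coe, rY_coe]
    exact hS V V' hV hV' h
  | zero => exact ⟨∅, fun V V' _ _ _ => by simp⟩
  | add a b _ _ ha hb =>
    obtain ⟨S, hS⟩ := ha
    obtain ⟨S', hS'⟩ := hb
    refine ⟨S ∪ S', fun V V' hV hV' h => ?_⟩
    rw [_root_.map_add, _root_.map_add,
      hS V V' hV hV' fun s hs => h s (Finset.mem_union_left _ hs),
      hS' V V' hV hV' fun s hs => h s (Finset.mem_union_right _ hs)]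
  | smul c a _ ha =>
    obtain ⟨S, hS⟩ := ha
    exact ⟨S, fun V V' hV hV' h => by rw [_root_.map_smul, _root_.map_smul, hS V V' hV hV' h]⟩

/-- The free space over `Y` is LUR renormable (given the renorming theorems). -/
theorem LURn_free
    (hDecomp : ∀ (X : Type) [NormedAddCommGroup X] [NormedSpace ℝ X] (I : Type)
      (F : I → X → ℝ) (R : I → X →ₗ[ℝ] X) (M : ℝ),
      (∀ i, QF (F i)) → (∀ i x, F i x ≤ M * ‖x‖ ^ 2) → (∀ i x, ‖R i x‖ ≤ M * ‖x‖) →
      (∀ i, ∃ C : ℝ, ∀ x, ‖R i x‖ ^ 2 ≤ C * F i x) →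
      (∀ x, ∀ δ > 0, {i | δ ≤ F i x}.Finite) → (∀ i, LURF (F i)) →
      (∀ x, ∀ ε > 0, ∃ B : Finset I, ‖x - ∑ i ∈ B, R i x‖ < ε) → LURn X)
    (hKadec : ∀ (X : Type) [NormedAddCommGroup X] [NormedSpace ℝ X] [CompleteSpace X]
      [TopologicalSpace.SeparableSpace X], LURn X)
    (hT : ∀ t : T, (Iic t).Countable) :
    LURn (XA (univ : Set (YT T))) := by
  have key : LURn (XA (AV (univ : Set T))) :=
    LURn_induct' (E := LI (Kh (YT T))) hDecomp hKadec hT PV (fun V => XA (AV V))
    (fun V => XA_closed _) (fun V U h => XA_mono fun y hy => YV_mono h hy) ?_ ?_ ?_ ?_ ?_ ?_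
    univ isLowerSet_univ
  · rw [AV_univ] at key
    exact key
  · intro V hV
    apply XA_separable
    have h1 := YV_separable hV
    have : AV V = ((↑) : YT T → LI T) ⁻¹' (YV V : Set (LI T)) := rfl
    rw [this]
    exact Topology.IsInducing.subtypeVal.isSeparable_preimage h1
  · intro V hV x hx
    rw [PV_eq hV]
    exact lin_mem (A := AV univ) (fun y _ => rV_mem hV y.2) hx
  · intro V hV x hx
    rw [PV_eq hV]
    apply lin_id (A := AV V) _ hx
    intro y hy
    apply Subtype.ext
    exact rV_id hV hy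
  · intro V x
    by_cases h : IsLowerSet V
    · rw [PV_eq h]
      exact norm_lin_le _ _ _ x
    · have : PV V = 0 := dif_neg h
      rw [this]
      simp
  · intro x hx
    have hE : IsLowerSet (∅ : Set T) := isLowerSet_empty
    have h1 : PV ∅ x ∈ XA ({0} : Set (YT T)) := by
      rw [PV_eq hE]
      apply lin_mem (A := AV univ) _ hx
      intro y _
      rw [mem_singleton_iff]
      apply Subtype.ext
      exact rV_empty _
    have h2 : XA ({0} : Set (YT T)) ≤ ⊥ := by
      apply XA_le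
      · simp
      · intro y hy
        rw [mem_singleton_iff] at hy
        rw [hy, dl_zero]
        exact Submodule.zero_mem _
    exact (Submodule.mem_bot ℝ).1 (h2 h1)
  · intro x hx ε hε
    have hx' : x ∈ XA (A0 T) := by
      apply XA_univ_le
      simp only [AV_univ] at hx
      exact hx
    have hx2 : x ∈ closure (Submodule.span ℝ (dl '' A0 T) : Set (LI (Kh (YT T)))) := hx'
    rw [Metric.mem_closure_iff] at hx2
    obtain ⟨x', hx'1, hx'2⟩ := hx2 ε hε
    refine ⟨x', ?_, ?_, exists_S hx'1⟩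
    · have : XA (A0 T) ≤ XA (AV (univ : Set T)) := XA_mono fun y _ => y.2
      exact this (Submodule.le_topologicalClosure _ hx'1)
    · rwa [dist_eq_norm] at hx'2

end

end Pool.Agent.LUR
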