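import Mathlib

/-!
# Disproof of Lipschitz invariance of LUR renormability (MP_234257_an): basic definitions

`QF F` says that `F` is the square of a seminorm.
-/

set_option autoImplicit false

open Filter Topology Set
open scoped ENNReal

namespace Pool.Agent.LUR

/-- `F` is the square of a seminorm. -/
structure QF {X : Type*} [AddCommGroup X] [Module ℝ X] (F : X → ℝ) : Prop where
  nonneg : ∀ x, 0 ≤ F x
  smul : ∀ (a : ℝ) (x : X), F (a • x) = a ^ 2 * F x
  add : ∀ (x y : X) (t : ℝ), 0 < t → F (x + y) ≤ (1 + t) * F x + (1 + t⁻¹) * F y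

/-- The parallelogram defect. -/
def defect {X : Type*} [AddCommGroup X] (F : X → ℝ) (x y : X) : ℝ :=
  2 * F x + 2 * F y - F (x + y)

/-- The LUR property of (the seminorm whose square is) `F`. -/
def LURF {X : Type*} [AddCommGroup X] (F : X → ℝ) : Prop :=
  ∀ (x : X) (l : Filter X), Tendsto (fun y => defect F x y) l (𝓝 0) →
    Tendsto (fun y => F (y - x)) l (𝓝 0)

/-- `X` has an equivalent LUR norm (in terms of its square). -/
def LURn (X : Type*) [NormedAddCommGroup X] [NormedSpace ℝ X] : Prop :=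
  ∃ F : X → ℝ, QF F ∧
    (∃ c C : ℝ, 0 < c ∧ 0 < C ∧ ∀ x, c * ‖x‖ ^ 2 ≤ F x ∧ F x ≤ C * ‖x‖ ^ 2) ∧ LURF F

namespace QF

variable {X : Type*} [AddCommGroup X] [Module ℝ X] {F G : X → ℝ}

lemma map_zero (hF : QF F) : F 0 = 0 := by
  have := hF.smul 0 0
  simpa using this

lemma map_neg (hF : QF F) (x : X) : F (-x) = F x := by
  have := hF.smul (-1) x
  simpa using this

lemma map_sub_comm (hF : QF F) (x y : X) : F (x - y) = F (y - x) := by
  rw [← hF.map_neg (x - y), neg_sub]

lemma defect_nonneg (hF : QF F) (x y : X) : 0 ≤ defect F x y := by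
  have := hF.add x y 1 one_pos
  unfold defect
  norm_num at this
  linarith

/-- the square root satisfies the triangle inequality -/
lemma sqrt_add_le (hF : QF F) (x y : X) :
    Real.sqrt (F (x + y)) ≤ Real.sqrt (F x) + Real.sqrt (F y) := by
  have ha := Real.sqrt_nonneg (F x)
  have hb := Real.sqrt_nonneg (F y)
  have hx := Real.sq_sqrt (hF.nonneg x)
  have hy := Real.sq_sqrt (hF.nonneg y)
  set a := Real.sqrt (F x)
  set b := Real.sqrt (F y)
  apply le_of_forall_pos_le_add
  intro ε hε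
  have h1 : 0 < a + ε / 2 := by positivity
  have h2 : 0 < b + ε / 2 := by positivity
  apply Real.sqrt_le_iff.2
  refine ⟨by positivity, ?_⟩
  have h := hF.add x y ((b + ε / 2) / (a + ε / 2)) (by positivity)
  rw [← hx, ← hy, inv_div] at h
  have h3 : (1 + (b + ε / 2) / (a + ε / 2)) * a ^ 2 ≤ (1 + (b + ε / 2) / (a + ε / 2)) * (a + ε / 2) ^ 2 := by
    apply mul_le_mul_of_nonneg_left _ (by positivity)
    apply pow_le_pow_left₀ ha; linarith
  have h4 : (1 + (a + ε / 2) / (b + ε / 2)) * b ^ 2 ≤ (1 + (a + ε / 2) / (b + ε / 2)) * (b + ε / 2) ^ 2 := by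
    apply mul_le_mul_of_nonneg_left _ (by positivity)
    apply pow_le_pow_left₀ hb; linarith
  have h5 : (1 + (b + ε / 2) / (a + ε / 2)) * (a + ε / 2) ^ 2 + (1 + (a + ε / 2) / (b + ε / 2)) * (b + ε / 2) ^ 2
      = (a + b + ε) ^ 2 := by
    field_simp
    ring
  linarith

lemma sqrt_smul (hF : QF F) (a : ℝ) (x : X) :
    Real.sqrt (F (a • x)) = |a| * Real.sqrt (F x) := by
  rw [hF.smul, Real.sqrt_mul (sq_nonneg a), Real.sqrt_sq_eq_abs]

lemma sqrt_sub_sqrt_sq_le_defect (hF : QF F) (x y : X) :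
    (Real.sqrt (F x) - Real.sqrt (F y)) ^ 2 ≤ defect F x y := by
  have h := hF.sqrt_add_le x y
  have ha := Real.sqrt_nonneg (F x)
  have hb := Real.sqrt_nonneg (F y)
  have hc := Real.sqrt_nonneg (F (x + y))
  have hx := Real.sq_sqrt (hF.nonneg x)
  have hy := Real.sq_sqrt (hF.nonneg y)
  have hz := Real.sq_sqrt (hF.nonneg (x + y))
  unfold defect
  have : F (x + y) ≤ (Real.sqrt (F x) + Real.sqrt (F y)) ^ 2 := by
    rw [← hz]; exact pow_le_pow_left₀ hc h 2
  nlinarith

/-- if the defect tends to zero, then `F y → F x` -/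
lemma tendsto_of_defect (hF : QF F) {x : X} {l : Filter X}
    (h : Tendsto (fun y => defect F x y) l (𝓝 0)) : Tendsto F l (𝓝 (F x)) := by
  have h1 : Tendsto (fun y => (Real.sqrt (F x) - Real.sqrt (F y)) ^ 2) l (𝓝 0) :=
    squeeze_zero (fun y => sq_nonneg _) (fun y => hF.sqrt_sub_sqrt_sq_le_defect x y) h
  have h2 : Tendsto (fun y => Real.sqrt ((Real.sqrt (F x) - Real.sqrt (F y)) ^ 2)) l (𝓝 0) := by
    have := (Real.continuous_sqrt.tendsto 0).comp h1
    rw [Real.sqrt_zero] at this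
    exact this
  simp only [Real.sqrt_sq_eq_abs] at h2
  have h3 : Tendsto (fun y => Real.sqrt (F x) - Real.sqrt (F y)) l (𝓝 0) :=
    (tendsto_zero_iff_abs_tendsto_zero _).2 h2
  have h4 : Tendsto (fun y => Real.sqrt (F y)) l (𝓝 (Real.sqrt (F x))) := by
    have := (tendsto_const_nhds (x := Real.sqrt (F x))).sub h3
    simpa using this
  have h5 := h4.pow 2
  simpa [Real.sq_sqrt (hF.nonneg _)] using h5

lemma const_mul (hF : QF F) {c : ℝ} (hc : 0 ≤ c) : QF (fun x => c * F x) where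
  nonneg x := mul_nonneg hc (hF.nonneg x)
  smul a x := by rw [hF.smul]; ring
  add x y t ht := by
    have := mul_le_mul_of_nonneg_left (hF.add x y t ht) hc
    linarith

lemma add' (hF : QF F) (hG : QF G) : QF (fun x => F x + G x) where
  nonneg x := add_nonneg (hF.nonneg x) (hG.nonneg x)
  smul a x := by rw [hF.smul, hG.smul]; ring
  add x y t ht := by
    have := hF.add x y t ht
    have := hG.add x y t ht
    linarith

lemma zero : QF (fun _ : X => (0 : ℝ)) where
  nonneg _ := le_rfl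
  smul a x := by ring
  add x y t ht := by simp

lemma sum {ι : Type*} (s : Finset ι) (G : ι → X → ℝ) (hG : ∀ i ∈ s, QF (G i)) :
    QF (fun x => ∑ i ∈ s, G i x) where
  nonneg x := Finset.sum_nonneg fun i hi => (hG i hi).nonneg x
  smul a x := by
    rw [Finset.mul_sum]; exact Finset.sum_congr rfl fun i hi => (hG i hi).smul a x
  add x y t ht := by
    rw [Finset.mul_sum, Finset.mul_sum, ← Finset.sum_add_distrib]
    exact Finset.sum_le_sum fun i hi => (hG i hi).add x y t ht

lemma iSup {ι : Type*} [Nonempty ι] (G : ι → X → ℝ) (hG : ∀ i, QF (G i))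
    (hb : ∀ x, BddAbove (range fun i => G i x)) : QF (fun x => ⨆ i, G i x) where
  nonneg x := Real.iSup_nonneg fun i => (hG i).nonneg x
  smul a x := by
    rw [Real.mul_iSup_of_nonneg (sq_nonneg a)]
    exact iSup_congr fun i => (hG i).smul a x
  add x y t ht := by
    apply ciSup_le
    intro i
    refine ((hG i).add x y t ht).trans ?_
    have h1 := le_ciSup (hb x) i
    have h2 := le_ciSup (hb y) i
    have : 0 < t⁻¹ := inv_pos.2 ht
    gcongr

lemma tsum {ι : Type*} (G : ι → X → ℝ) (hG : ∀ i, QF (G i))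
    (hs : ∀ x, Summable fun i => G i x) : QF (fun x => ∑' i, G i x) where
  nonneg x := tsum_nonneg fun i => (hG i).nonneg x
  smul a x := by
    rw [← tsum_mul_left]; exact tsum_congr fun i => (hG i).smul a x
  add x y t ht := by
    rw [← tsum_mul_left, ← tsum_mul_left, ← ((hs x).mul_left _).tsum_add ((hs y).mul_left _)]
    exact (hs (x + y)).tsum_le_tsum (fun i => (hG i).add x y t ht)
      (((hs x).mul_left _).add ((hs y).mul_left _))

lemma comp {Y : Type*} [AddCommGroup Y] [Module ℝ Y] (hF : QF F) (L : Y →ₗ[ℝ] X) :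
    QF (fun y => F (L y)) where
  nonneg y := hF.nonneg _
  smul a y := by rw [_root_.map_smul, hF.smul]
  add x y t ht := by rw [_root_.map_add]; exact hF.add _ _ t ht

end QF

lemma QF_norm_sq {X : Type*} [SeminormedAddCommGroup X] [NormedSpace ℝ X] :
    QF (fun x : X => ‖x‖ ^ 2) where
  nonneg x := sq_nonneg _
  smul a x := by rw [norm_smul, mul_pow, Real.norm_eq_abs, sq_abs]
  add x y t ht := by
    have h1 : ‖x + y‖ ^ 2 ≤ (‖x‖ + ‖y‖) ^ 2 :=
      pow_le_pow_left₀ (norm_nonneg _) (norm_add_le x y) 2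
    have h2 : 2 * (‖x‖ * ‖y‖) ≤ t * ‖x‖ ^ 2 + t⁻¹ * ‖y‖ ^ 2 := by
      have h3 : 0 ≤ t⁻¹ * (t * ‖x‖ - ‖y‖) ^ 2 := by positivity
      have h4 : t⁻¹ * (t * ‖x‖ - ‖y‖) ^ 2 = t * ‖x‖ ^ 2 + t⁻¹ * ‖y‖ ^ 2 - 2 * (‖x‖ * ‖y‖) := by
        field_simp
        ring
      linarith
    nlinarith

lemma QF_norm_sq_comp {X Y : Type*} [AddCommGroup X] [Module ℝ X] [SeminormedAddCommGroup Y]
    [NormedSpace ℝ Y] (L : X →ₗ[ℝ] Y) : QF (fun x : X => ‖L x‖ ^ 2) :=
  (QF_norm_sq (X := Y)).comp L

lemma QF_abs_sq_comp {X : Type*} [AddCommGroup X] [Module ℝ X] (L : X →ₗ[ℝ] ℝ) :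
    QF (fun x : X => (L x) ^ 2) := by
  have := QF_norm_sq_comp L
  simpa [Real.norm_eq_abs, sq_abs] using this

/-- Combination lemma: countably many bounded squares of seminorms can be combined with the
square of the norm to one, which controls all defects. -/
theorem exists_comb {X : Type*} [NormedAddCommGroup X] [NormedSpace ℝ X] {ι : Type*} [Countable ι]
    (G : ι → X → ℝ) (hG : ∀ i, QF (G i)) (hb : ∀ i, ∃ K : ℝ, ∀ x, G i x ≤ K * ‖x‖ ^ 2) :
    ∃ F : X → ℝ, QF F ∧ (∃ c C : ℝ, 0 < c ∧ 0 < C ∧ ∀ x, c * ‖x‖ ^ 2 ≤ F x ∧ F x ≤ C * ‖x‖ ^ 2) ∧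
      (∀ x y, defect (fun z => ‖z‖ ^ 2) x y ≤ defect F x y) ∧
      ∀ i, ∃ c : ℝ, 0 < c ∧ ∀ x y, c * defect (G i) x y ≤ defect F x y := by
  classical
  choose K hK using hb
  have : Encodable ι := Encodable.ofCountable ι
  obtain ⟨w, hw0, c, hwc, -⟩ := posSumOfEncodable one_pos ι
  have hws : Summable w := hwc.summable
  set v : ι → ℝ := fun i => w i / (1 + |K i|) with hv
  have hv0 : ∀ i, 0 < v i := fun i => div_pos (hw0 i) (by positivity)
  have hle : ∀ i x, v i * G i x ≤ w i * ‖x‖ ^ 2 := by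
    intro i x
    have h1 : G i x ≤ (1 + |K i|) * ‖x‖ ^ 2 := by
      refine (hK i x).trans ?_
      apply mul_le_mul_of_nonneg_right _ (sq_nonneg _)
      linarith [le_abs_self (K i)]
    calc v i * G i x ≤ v i * ((1 + |K i|) * ‖x‖ ^ 2) :=
          mul_le_mul_of_nonneg_left h1 (hv0 i).le
      _ = w i * ‖x‖ ^ 2 := by
          have : (1 + |K i|) ≠ 0 := by positivity
          simp only [hv]; field_simp
  have hsum : ∀ x, Summable fun i => v i * G i x := fun x =>
    Summable.of_nonneg_of_le (fun i => mul_nonneg (hv0 i).le ((hG i).nonneg x)) (fun i => hle i x)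
      (hws.mul_right _)
  have hQ : QF (fun x => ∑' i, v i * G i x) :=
    QF.tsum _ (fun i => (hG i).const_mul (hv0 i).le) hsum
  have hd : ∀ x y, defect (fun z => ‖z‖ ^ 2 + ∑' i, v i * G i z) x y
      = defect (fun z => ‖z‖ ^ 2) x y + ∑' i, v i * defect (G i) x y := by
    intro x y
    have h1 : ∑' i, v i * defect (G i) x y
        = 2 * (∑' i, v i * G i x) + 2 * (∑' i, v i * G i y) - ∑' i, v i * G i (x + y) := by
      rw [← tsum_mul_left, ← tsum_mul_left,
        ← ((hsum x).mul_left 2).tsum_add ((hsum y).mul_left 2),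
        ← (((hsum x).mul_left 2).add ((hsum y).mul_left 2)).tsum_sub (hsum (x + y))]
      apply tsum_congr
      intro i
      unfold defect
      ring
    rw [h1]
    unfold defect
    ring
  have hdsum : ∀ x y, Summable fun i => v i * defect (G i) x y := by
    intro x y
    have := ((((hsum x).mul_left 2).add ((hsum y).mul_left 2)).sub (hsum (x + y)))
    refine this.congr fun i => ?_
    unfold defect
    ring
  have hd0 : ∀ x y i, 0 ≤ v i * defect (G i) x y := fun x y i =>
    mul_nonneg (hv0 i).le ((hG i).defect_nonneg x y)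
  have hwpos : 0 < 1 + ∑' i, w i := by
    have : 0 ≤ ∑' i, w i := tsum_nonneg fun i => (hw0 i).le
    linarith
  refine ⟨fun z => ‖z‖ ^ 2 + ∑' i, v i * G i z, QF_norm_sq.add' hQ,
    ⟨1, 1 + ∑' i, w i, one_pos, hwpos, ?_⟩, ?_, ?_⟩
  · intro x
    constructor
    · have := hQ.nonneg x
      linarith
    · have : ∑' i, v i * G i x ≤ ∑' i, w i * ‖x‖ ^ 2 :=
        (hsum x).tsum_le_tsum (fun i => hle i x) (hws.mul_right _)
      rw [tsum_mul_right] at this
      simp only
      linarith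
  · intro x y
    rw [hd]
    have : 0 ≤ ∑' i, v i * defect (G i) x y := tsum_nonneg (hd0 x y)
    linarith
  · intro i
    refine ⟨v i, hv0 i, fun x y => ?_⟩
    rw [hd]
    have h1 : v i * defect (G i) x y ≤ ∑' i, v i * defect (G i) x y :=
      (hdsum x y).le_tsum i fun j _ => hd0 x y j
    have h2 := (QF_norm_sq (X := X)).defect_nonneg x y
    linarith

lemma tendsto_defect_of_le {X : Type*} [AddCommGroup X] [Module ℝ X] {F G : X → ℝ} (hG : QF G)
    {c : ℝ} (hc : 0 < c) (h : ∀ x y, c * defect G x y ≤ defect F x y) {x : X} {l : Filter X}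
    (hl : Tendsto (fun y => defect F x y) l (𝓝 0)) : Tendsto (fun y => defect G x y) l (𝓝 0) := by
  have h1 : Tendsto (fun y => c⁻¹ * defect F x y) l (𝓝 0) := by
    simpa using hl.const_mul c⁻¹
  refine squeeze_zero (fun y => hG.defect_nonneg x y) (fun y => ?_) h1
  rw [← div_eq_inv_mul, le_div_iff₀ hc, mul_comm]
  exact h x y

/-- transport of LUR renormability to the frozen form -/
theorem LURn.frozen {X : Type*} [NormedAddCommGroup X] [NormedSpace ℝ X] (h : LURn X) :
    ∃ N : X → ℝ, (∀ x y : X, N (x + y) ≤ N x + N y) ∧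
      (∀ (a : ℝ) (x : X), N (a • x) = |a| * N x) ∧
      (∃ c C : ℝ, 0 < c ∧ 0 < C ∧ ∀ x : X, c * ‖x‖ ≤ N x ∧ N x ≤ C * ‖x‖) ∧
      (∀ x : X, N x = 1 → ∀ ε : ℝ, 0 < ε → ∃ δ : ℝ, 0 < δ ∧
        ∀ y : X, N y = 1 → 2 - δ < N (x + y) → N (x - y) < ε) := by
  obtain ⟨F, hF, ⟨c, C, hc, hC, hb⟩, hL⟩ := h
  refine ⟨fun x => Real.sqrt (F x), hF.sqrt_add_le, hF.sqrt_smul,
    ⟨Real.sqrt c, Real.sqrt C, Real.sqrt_pos.2 hc, Real.sqrt_pos.2 hC, fun x => ⟨?_, ?_⟩⟩, ?_⟩
  · apply Real.le_sqrt_of_sq_le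
    rw [mul_pow, Real.sq_sqrt hc.le]
    exact (hb x).1
  · rw [Real.sqrt_le_iff, mul_pow, Real.sq_sqrt hC.le]
    exact ⟨by positivity, (hb x).2⟩
  · intro x hx ε hε
    have h1 := hL x (comap (fun y => defect F x y) (𝓝 0)) tendsto_comap
    have h2 : ∀ᶠ y in comap (fun y => defect F x y) (𝓝 0), F (y - x) < ε ^ 2 :=
      h1.eventually (gt_mem_nhds (by positivity))
    rw [eventually_comap] at h2
    obtain ⟨δ, hδ, h3⟩ := Metric.eventually_nhds_iff.1 h2
    refine ⟨δ / 4, by positivity, fun y hy hxy => ?_⟩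
    have hFx : F x = 1 := by
      have := Real.sq_sqrt (hF.nonneg x)
      simp only at hx
      rw [hx] at this
      linarith
    have hFy : F y = 1 := by
      have := Real.sq_sqrt (hF.nonneg y)
      simp only at hy
      rw [hy] at this
      linarith
    have hs := Real.sq_sqrt (hF.nonneg (x + y))
    have hs0 := Real.sqrt_nonneg (F (x + y))
    have hd0 := hF.defect_nonneg x y
    have h4 : defect F x y < δ := by
      unfold defect
      rw [hFx, hFy]
      simp only at hxy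
      by_cases h5 : δ / 4 ≤ 2
      · nlinarith
      · nlinarith
    have h6 := h3 (y := defect F x y) (by rw [Real.dist_eq, sub_zero, abs_of_nonneg hd0]; exact h4) y rfl
    simp only
    rw [Real.sqrt_lt' hε, hF.map_sub_comm]
    exact h6

end Pool.Agent.LUR
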