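import Pool.Agent.Helper96.LUR.Space

/-!
# The free space: linearization of Lipschitz maps, closed spans of evaluations
-/

set_option autoImplicit false

open Filter Topology Set
open scoped ENNReal Cardinal NNReal

namespace Pool.Agent.LUR

section lin

variable {Y : Type} [NormedAddCommGroup Y]

/-- `g ↦ (g ∘ r)/2` -/
noncomputable def Kh.pull (r : Y → Y) (hr : ∀ y z, ‖r y - r z‖ ≤ 2 * ‖y - z‖) (h0 : r 0 = 0)
    (g : Kh Y) : Kh Y :=
  ⟨fun y => g.1 (r y) / 2, by
    constructor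
    · apply LipschitzWith.of_dist_le_mul
      intro y z
      rw [Real.dist_eq, dist_eq_norm, ← sub_div, abs_div, abs_of_pos (two_pos : (0:ℝ) < 2),
        div_le_iff₀ two_pos]
      refine (g.abs_sub_le _ _).trans ((hr y z).trans_eq ?_)
      push_cast
      ring
    · simp [h0, g.2.2]⟩

/-- linearization -/
noncomputable def lin (r : Y → Y) (hr : ∀ y z, ‖r y - r z‖ ≤ 2 * ‖y - z‖) (h0 : r 0 = 0) :
    LI (Kh Y) →L[ℝ] LI (Kh Y) :=
  LinearMap.mkContinuous
    { toFun := fun Φ => mkLI (fun g => 2 * Φ (g.pull r hr h0)) (2 * ‖Φ‖) (fun g => by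
        rw [abs_mul, abs_of_pos (two_pos : (0:ℝ) < 2)]
        exact mul_le_mul_of_nonneg_left (LI.abs_le Φ _) two_pos.le)
      map_add' := fun Φ Ψ => by
        ext g
        rw [LI.add_apply, mkLI_apply, mkLI_apply, mkLI_apply, LI.add_apply]
        ring
      map_smul' := fun c Φ => by
        ext g
        rw [RingHom.id_apply, LI.smul_apply, mkLI_apply, mkLI_apply, LI.smul_apply]
        ring }
    2 (fun Φ => by
      apply LI.norm_le _ (by positivity)
      intro g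
      change |2 * Φ (g.pull r hr h0)| ≤ _
      rw [abs_mul, abs_of_pos (two_pos : (0:ℝ) < 2)]
      exact mul_le_mul_of_nonneg_left (LI.abs_le Φ _) two_pos.le)

lemma lin_apply (r : Y → Y) (hr : ∀ y z, ‖r y - r z‖ ≤ 2 * ‖y - z‖) (h0 : r 0 = 0)
    (Φ : LI (Kh Y)) (g : Kh Y) : lin r hr h0 Φ g = 2 * Φ (g.pull r hr h0) := rfl

lemma lin_dl (r : Y → Y) (hr : ∀ y z, ‖r y - r z‖ ≤ 2 * ‖y - z‖) (h0 : r 0 = 0) (y : Y) :
    lin r hr h0 (dl y) = dl (r y) := by
  ext g
  rw [lin_apply, dl_apply, dl_apply]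
  change 2 * (g.1 (r y) / 2) = _
  ring

lemma norm_lin_le (r : Y → Y) (hr : ∀ y z, ‖r y - r z‖ ≤ 2 * ‖y - z‖) (h0 : r 0 = 0)
    (Φ : LI (Kh Y)) : ‖lin r hr h0 Φ‖ ≤ 2 * ‖Φ‖ := by
  refine (ContinuousLinearMap.le_opNorm _ _).trans ?_
  apply mul_le_mul_of_nonneg_right _ (norm_nonneg _)
  exact LinearMap.mkContinuous_norm_le _ (by norm_num) _

lemma continuous_dl : Continuous (dl : Y → LI (Kh Y)) := by
  have : LipschitzWith 1 (dl : Y → LI (Kh Y)) := by
    apply LipschitzWith.of_dist_le_mul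
    intro y z
    rw [dist_eq_norm, dist_eq_norm]
    simpa using norm_dl_sub_le y z
  exact this.continuous

end lin

section spans

variable {Y : Type} [NormedAddCommGroup Y]

/-- closed span of the evaluations at points of `A` -/
noncomputable def XA (A : Set Y) : Submodule ℝ (LI (Kh Y)) :=
  (Submodule.span ℝ (dl '' A)).topologicalClosure

lemma XA_closed (A : Set Y) : IsClosed (XA A : Set (LI (Kh Y))) :=
  Submodule.isClosed_topologicalClosure _

lemma XA_mono {A B : Set Y} (h : A ⊆ B) : XA A ≤ XA B :=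
  Submodule.topologicalClosure_mono (Submodule.span_mono (image_mono h))

lemma dl_mem_XA {A : Set Y} {y : Y} (h : y ∈ A) : dl y ∈ XA A :=
  Submodule.le_topologicalClosure _ (Submodule.subset_span (mem_image_of_mem _ h))

lemma XA_separable {A : Set Y} (h : TopologicalSpace.IsSeparable A) :
    TopologicalSpace.IsSeparable (XA A : Set (LI (Kh Y))) := by
  have h1 : TopologicalSpace.IsSeparable (dl '' A : Set (LI (Kh Y))) := h.image continuous_dl
  have h2 : TopologicalSpace.IsSeparable (Submodule.span ℝ (dl '' A) : Set (LI (Kh Y))) :=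
    h1.span
  exact h2.closure

lemma XA_le {A : Set Y} {S : Submodule ℝ (LI (Kh Y))} (hS : IsClosed (S : Set (LI (Kh Y))))
    (h : ∀ y ∈ A, dl y ∈ S) : XA A ≤ S := by
  apply Submodule.topologicalClosure_minimal _ _ hS
  rw [Submodule.span_le]
  rintro _ ⟨y, hy, rfl⟩
  exact h y hy

/-- a linearization maps `XA A` into `XA B` if `r A ⊆ B` -/
lemma lin_mem {r : Y → Y} {hr : ∀ y z, ‖r y - r z‖ ≤ 2 * ‖y - z‖} {h0 : r 0 = 0}
    {A B : Set Y} (h : ∀ y ∈ A, r y ∈ B) {x : LI (Kh Y)} (hx : x ∈ XA A) :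
    lin r hr h0 x ∈ XA B := by
  have : XA A ≤ (XA B).comap ((lin r hr h0 : LI (Kh Y) →L[ℝ] LI (Kh Y)) : LI (Kh Y) →ₗ[ℝ] LI (Kh Y)) := by
    apply XA_le
    · exact (XA_closed B).preimage (lin r hr h0).continuous
    · intro y hy
      rw [Submodule.mem_comap]
      change lin r hr h0 (dl y) ∈ XA B
      rw [lin_dl]
      exact dl_mem_XA (h y hy)
  exact this hx

lemma lin_eq {r r' : Y → Y} {hr : ∀ y z, ‖r y - r z‖ ≤ 2 * ‖y - z‖} {h0 : r 0 = 0}
    {hr' : ∀ y z, ‖r' y - r' z‖ ≤ 2 * ‖y - z‖} {h0' : r' 0 = 0}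
    {A : Set Y} (h : ∀ y ∈ A, r y = r' y) {x : LI (Kh Y)} (hx : x ∈ Submodule.span ℝ (dl '' A)) :
    lin r hr h0 x = lin r' hr' h0' x := by
  induction hx using Submodule.span_induction with
  | mem z hz =>
    obtain ⟨y, hy, rfl⟩ := hz
    rw [lin_dl, lin_dl, h y hy]
  | zero => simp
  | add a b _ _ ha hb => rw [_root_.map_add, _root_.map_add, ha, hb]
  | smul c a _ ha => rw [_root_.map_smul, _root_.map_smul, ha]

lemma lin_id {r : Y → Y} {hr : ∀ y z, ‖r y - r z‖ ≤ 2 * ‖y - z‖} {h0 : r 0 = 0}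
    {A : Set Y} (h : ∀ y ∈ A, r y = y) {x : LI (Kh Y)} (hx : x ∈ XA A) :
    lin r hr h0 x = x := by
  have : XA A ≤ LinearMap.eqLocus ((lin r hr h0 : LI (Kh Y) →L[ℝ] LI (Kh Y)) : LI (Kh Y) →ₗ[ℝ] LI (Kh Y))
      LinearMap.id := by
    apply XA_le
    · exact isClosed_eq (lin r hr h0).continuous continuous_id
    · intro y hy
      change lin r hr h0 (dl y) = dl y
      rw [lin_dl, h y hy]
  exact this hx

end spans

end Pool.Agent.LUR
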