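import Pool.Agent.Helper96.LUR.Defs

/-!
# Kadec: every separable Banach space is LUR renormable
-/

set_option autoImplicit false

open Filter Topology Set
open scoped ENNReal

namespace Pool.Agent.LUR

section

variable {X : Type*} [NormedAddCommGroup X] [NormedSpace ℝ X]

/-- span of the first `n` vectors -/
def Esp (d : ℕ → X) (n : ℕ) : Submodule ℝ X := Submodule.span ℝ (d '' Iio n)

instance (d : ℕ → X) (n : ℕ) : FiniteDimensional ℝ (Esp d n) :=
  FiniteDimensional.span_of_finite ℝ ((finite_Iio n).image d)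

lemma qnorm_le (E : Submodule ℝ X) (x : X) : ‖E.mkQ x‖ ≤ ‖x‖ :=
  Submodule.Quotient.norm_mk_le E x

lemma exists_near (E : Submodule ℝ X) {y : X} {ε : ℝ} (h : ‖E.mkQ y‖ < ε) :
    ∃ e ∈ E, ‖y - e‖ < ε := by
  obtain ⟨m, hm, hlt⟩ := Submodule.Quotient.norm_mk_lt (E.mkQ y)
    (show 0 < ε - ‖E.mkQ y‖ by linarith)
  refine ⟨y - m, ?_, ?_⟩
  · have : E.mkQ (y - m) = 0 := by
      rw [map_sub]
      have : E.mkQ m = E.mkQ y := hm
      rw [this, sub_self]
    rw [Submodule.mkQ_apply, Submodule.Quotient.mk_eq_zero] at this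
    exact this
  · rw [sub_sub_cancel]
    linarith

lemma near_mk (E : Submodule ℝ X) {x e : X} (he : e ∈ E) : ‖E.mkQ x‖ ≤ ‖x - e‖ := by
  have : E.mkQ x = E.mkQ (x - e) := by
    rw [map_sub]
    have : E.mkQ e = 0 := by
      rw [Submodule.mkQ_apply, Submodule.Quotient.mk_eq_zero]; exact he
    rw [this, sub_zero]
  rw [this]
  exact qnorm_le E _

/-- A bounded ultrafilter whose quotient norms tend to those of a point is Cauchy. -/
lemma cauchy_of_ultra (d : ℕ → X) (hd : DenseRange d) (x : X) (U : Ultrafilter X)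
    (hb : ∃ R : ℝ, ∀ᶠ y in (U : Filter X), ‖y‖ < R)
    (hq : ∀ n, ∀ ε : ℝ, ‖(Esp d n).mkQ x‖ < ε → ∀ᶠ y in (U : Filter X), ‖(Esp d n).mkQ y‖ < ε) :
    Cauchy (U : Filter X) := by
  rw [Metric.cauchy_iff]
  refine ⟨U.neBot, fun ε hε => ?_⟩
  obtain ⟨R, hR⟩ := hb
  set η := ε / 8 with hη
  have hη0 : 0 < η := by positivity
  obtain ⟨m, hm⟩ := hd.exists_dist_lt x hη0
  have hx : ‖(Esp d (m + 1)).mkQ x‖ < η := by
    refine lt_of_le_of_lt (near_mk _ (e := d m) (Submodule.subset_span ⟨m, by simp, rfl⟩)) ?_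
    rwa [dist_eq_norm] at hm
  have hy := hq (m + 1) η hx
  set E := Esp d (m + 1) with hE
  -- the compact set
  have hcomp : IsCompact ((fun e : E => (e : X)) '' Metric.closedBall (0 : E) (R + η)) :=
    (isCompact_closedBall (0 : E) (R + η)).image continuous_subtype_val
  obtain ⟨t, -, ht, htc⟩ := hcomp.finite_cover_balls hη0
  have hcov : ∀ᶠ y in (U : Filter X), y ∈ ⋃ c ∈ t, Metric.ball c (2 * η) := by
    filter_upwards [hR, hy] with y h1 h2
    obtain ⟨e, he, hlt⟩ := exists_near E h2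
    have hen : ‖e‖ ≤ R + η := by
      have : ‖e‖ ≤ ‖y‖ + ‖y - e‖ := by
        have := norm_sub_le y (y - e)
        rwa [sub_sub_cancel] at this
      linarith
    have hmem : e ∈ (fun e : E => (e : X)) '' Metric.closedBall (0 : E) (R + η) :=
      ⟨⟨e, he⟩, by simpa using hen, rfl⟩
    have := htc hmem
    simp only [mem_iUnion, Metric.mem_ball, exists_prop] at this ⊢
    obtain ⟨c, hc, hlt2⟩ := this
    refine ⟨c, hc, ?_⟩
    have h3 := dist_triangle y e c
    rw [dist_eq_norm y e] at h3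
    linarith
  have hex : ∃ c ∈ t, Metric.ball c (2 * η) ∈ U := by
    have := (Ultrafilter.finite_biUnion_mem_iff ht).1 hcov
    exact this
  obtain ⟨c, -, hc⟩ := hex
  refine ⟨_, hc, fun a ha b hb => ?_⟩
  rw [Metric.mem_ball] at ha hb
  have h3 := dist_triangle_right a b c
  linarith

end

/-- MODULE K (Kadec). -/
theorem LURn_of_separable {X : Type*} [NormedAddCommGroup X] [NormedSpace ℝ X] [CompleteSpace X]
    [TopologicalSpace.SeparableSpace X] : LURn X := by
  set d : ℕ → X := TopologicalSpace.denseSeq X with hd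
  have hdense : DenseRange d := TopologicalSpace.denseRange_denseSeq X
  have hg : ∀ n, ∃ g : StrongDual ℝ X, ‖g‖ ≤ 1 ∧ g (d n) = ‖d n‖ := fun n => by
    obtain ⟨g, h1, h2⟩ := exists_dual_vector'' ℝ (d n)
    exact ⟨g, h1, by simpa using h2⟩
  choose g hg1 hg2 using hg
  let G : ℕ ⊕ ℕ → X → ℝ := fun i => match i with
    | Sum.inl n => fun x => ‖(Esp d n).mkQ x‖ ^ 2
    | Sum.inr n => fun x => (g n x) ^ 2
  have hG : ∀ i, QF (G i) := by
    rintro (n | n)
    · exact QF_norm_sq_comp _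
    · exact QF_abs_sq_comp (g n : X →ₗ[ℝ] ℝ)
  have hGb : ∀ i, ∃ K : ℝ, ∀ x, G i x ≤ K * ‖x‖ ^ 2 := by
    rintro (n | n)
    · refine ⟨1, fun x => ?_⟩
      rw [one_mul]
      exact pow_le_pow_left₀ (norm_nonneg _) (qnorm_le _ x) 2
    · refine ⟨1, fun x => ?_⟩
      rw [one_mul]
      show (g n x) ^ 2 ≤ ‖x‖ ^ 2
      rw [← sq_abs]
      refine pow_le_pow_left₀ (abs_nonneg _) ?_ 2
      calc |g n x| ≤ ‖g n‖ * ‖x‖ := (g n).le_opNorm x
        _ ≤ 1 * ‖x‖ := mul_le_mul_of_nonneg_right (hg1 n) (norm_nonneg _)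
        _ = ‖x‖ := one_mul _
  obtain ⟨F, hF, ⟨c, C, hc, hC, hFb⟩, hFn, hFi⟩ := exists_comb G hG hGb
  refine ⟨F, hF, ⟨c, C, hc, hC, hFb⟩, ?_⟩
  intro x l hl
  -- convergence of the norm
  have hnorm : Tendsto (fun y : X => ‖y‖ ^ 2) l (𝓝 (‖x‖ ^ 2)) :=
    QF_norm_sq.tendsto_of_defect
      (tendsto_defect_of_le QF_norm_sq one_pos (fun a b => by rw [one_mul]; exact hFn a b) hl)
  have hqn : ∀ n, Tendsto (fun y : X => ‖(Esp d n).mkQ y‖ ^ 2) l (𝓝 (‖(Esp d n).mkQ x‖ ^ 2)) := by
    intro n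
    obtain ⟨a, ha, hle⟩ := hFi (Sum.inl n)
    exact (hG (Sum.inl n)).tendsto_of_defect (tendsto_defect_of_le (hG (Sum.inl n)) ha hle hl)
  have hgn : ∀ n, Tendsto (fun y : X => g n y) l (𝓝 (g n x)) := by
    intro n
    obtain ⟨a, ha, hle⟩ := hFi (Sum.inr n)
    have h1 := tendsto_defect_of_le (hG (Sum.inr n)) ha hle hl
    have h2 : ∀ y, defect (G (Sum.inr n)) x y = (g n y - g n x) ^ 2 := by
      intro y
      show 2 * (g n x) ^ 2 + 2 * (g n y) ^ 2 - (g n (x + y)) ^ 2 = _
      rw [map_add]; ring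
    simp_rw [h2] at h1
    have h3 : Tendsto (fun y => |g n y - g n x|) l (𝓝 0) := by
      have := (Real.continuous_sqrt.tendsto 0).comp h1
      rw [Real.sqrt_zero] at this
      refine this.congr fun y => ?_
      simp [Real.sqrt_sq_eq_abs]
    have h4 : Tendsto (fun y => g n y - g n x) l (𝓝 0) :=
      (tendsto_zero_iff_abs_tendsto_zero _).2 h3
    simpa using h4.add_const (g n x)
  have hmain : Tendsto (fun y : X => y) l (𝓝 x) := by
    rw [tendsto_iff_ultrafilter]
    intro U hU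
    have hCau : Cauchy (U : Filter X) := by
      refine cauchy_of_ultra d hdense x U ?_ ?_
      · refine ⟨‖x‖ + 1, ?_⟩
        have h1 : ∀ᶠ y in (U : Filter X), ‖y‖ ^ 2 < (‖x‖ + 1) ^ 2 :=
          (hnorm.mono_left hU).eventually (gt_mem_nhds (by nlinarith [norm_nonneg x]))
        filter_upwards [h1] with y hy
        exact lt_of_pow_lt_pow_left₀ 2 (by positivity) hy
      · intro n ε hε
        have h1 : ∀ᶠ y in (U : Filter X), ‖(Esp d n).mkQ y‖ ^ 2 < ε ^ 2 :=
          ((hqn n).mono_left hU).eventually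
            (gt_mem_nhds (pow_lt_pow_left₀ hε (norm_nonneg _) (by norm_num)))
        filter_upwards [h1] with y hy
        exact lt_of_pow_lt_pow_left₀ 2 ((norm_nonneg _).trans hε.le) hy
    obtain ⟨z, hz⟩ := CompleteSpace.complete hCau
    have hzx : ∀ n, g n z = g n x := by
      intro n
      have h1 : Tendsto (fun y : X => g n y) (U : Filter X) (𝓝 (g n z)) :=
        ((g n).continuous.tendsto z).mono_left hz
      exact tendsto_nhds_unique h1 ((hgn n).mono_left hU)
    have hzx' : z = x := by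
      rw [← sub_eq_zero, ← norm_eq_zero]
      by_contra hne
      have hpos : 0 < ‖z - x‖ := lt_of_le_of_ne (norm_nonneg _) (Ne.symm hne)
      obtain ⟨m, hm⟩ := hdense.exists_dist_lt (z - x) (show 0 < ‖z - x‖ / 2 by positivity)
      have h0 : g m (z - x) = 0 := by rw [map_sub, hzx, sub_self]
      have h1 : ‖d m‖ = g m (d m - (z - x)) := by rw [map_sub, h0, sub_zero, hg2]
      have h2 : g m (d m - (z - x)) ≤ ‖d m - (z - x)‖ := by
        calc g m (d m - (z - x)) ≤ |g m (d m - (z - x))| := le_abs_self _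
          _ ≤ ‖g m‖ * ‖d m - (z - x)‖ := (g m).le_opNorm _
          _ ≤ 1 * ‖d m - (z - x)‖ := mul_le_mul_of_nonneg_right (hg1 m) (norm_nonneg _)
          _ = _ := one_mul _
      rw [dist_eq_norm, norm_sub_rev] at hm
      have h3 : ‖z - x‖ ≤ ‖d m‖ + ‖d m - (z - x)‖ := by
        have := norm_sub_le (d m) (d m - (z - x))
        rwa [sub_sub_cancel] at this
      linarith
    rw [hzx'] at hz
    exact hz
  have h1 : Tendsto (fun y : X => C * ‖y - x‖ ^ 2) l (𝓝 0) := by
    have h2 : Tendsto (fun y : X => ‖y - x‖) l (𝓝 0) := by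
      have := (hmain.sub_const x).norm
      simpa using this
    have := (h2.pow 2).const_mul C
    simpa using this
  exact squeeze_zero (fun y => hF.nonneg _) (fun y => (hFb _).2) h1

end Pool.Agent.LUR
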