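import Pool.Agent.Helper96.LUR.Tree

/-!
# The space `Y = YV univ` over the tree `Nd` has no equivalent LUR norm
-/

set_option autoImplicit false

open Filter Topology Set
open scoped ENNReal Cardinal

namespace Pool.Agent.LUR

/-- the space `Y` -/
abbrev YY : Type := YV (univ : Set Nd)

/-- `ft t` as an element of `Y` -/
noncomputable def fY (t : Nd) : YY :=
  ⟨ft t, Submodule.le_topologicalClosure _ (Submodule.subset_span ⟨t, mem_univ t, rfl⟩)⟩

/-- evaluation on `Y` -/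
def ev (u : Nd) : YY →ₗ[ℝ] ℝ where
  toFun φ := (φ : LI Nd) u
  map_add' _ _ := rfl
  map_smul' _ _ := rfl

open Classical in
lemma ev_fY (t u : Nd) : ev u (fY t) = if u ≤ t then 1 else 0 := ft_apply t u

lemma YY.norm_le (φ : YY) {B : ℝ} (hB : 0 ≤ B) (h : ∀ u, |ev u φ| ≤ B) : ‖φ‖ ≤ B :=
  LI.norm_le (φ : LI Nd) hB h

lemma YY.abs_ev_le (φ : YY) (u : Nd) : |ev u φ| ≤ ‖φ‖ := LI.abs_le (φ : LI Nd) u

lemma norm_fY_le (t : Nd) : ‖fY t‖ ≤ 1 := by
  classical
  refine YY.norm_le _ zero_le_one fun u => ?_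
  rw [ev_fY]
  split_ifs <;> simp

lemma one_le_norm_fY (t : Nd) : 1 ≤ ‖fY t‖ := by
  classical
  have := YY.abs_ev_le (fY t) t
  rw [ev_fY, if_pos le_rfl, abs_one] at this
  exact this

/-- elements of `Y` supported strictly above `t` -/
def SS (t : Nd) : Set YY := {φ | ∀ u, ¬ t < u → ev u φ = 0}

lemma zero_mem_SS (t : Nd) : (0 : YY) ∈ SS t := fun u _ => map_zero (ev u)

lemma SS_sub {t u : Nd} (h : t ≤ u) : fY u - fY t ∈ SS t := by
  classical
  intro v hv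
  rw [map_sub, ev_fY, ev_fY]
  have : v ≤ u ↔ v ≤ t := by
    constructor
    · intro hvu
      rcases Nd.le_total_of_le hvu h with h1 | h1
      · exact h1
      · rcases lt_or_eq_of_le h1 with h2 | h2
        · exact absurd h2 hv
        · exact h2 ▸ le_rfl
    · intro hvt
      exact hvt.trans h
  simp [this]

lemma SS_mono {t u : Nd} (h : t ≤ u) : SS u ⊆ SS t := fun _ hφ v hv =>
  hφ v fun h1 => hv (h.trans_lt h1)

lemma SS_add {t : Nd} {φ ψ : YY} (h1 : φ ∈ SS t) (h2 : ψ ∈ SS t) : φ + ψ ∈ SS t := fun u hu => by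
  rw [map_add, h1 u hu, h2 u hu, add_zero]

lemma SS_smul {t : Nd} (a : ℝ) {φ : YY} (h1 : φ ∈ SS t) : a • φ ∈ SS t := fun u hu => by
  rw [map_smul, h1 u hu, smul_zero]

/-- an equivalent norm on `Y` -/
structure IsN (N : YY → ℝ) (c C : ℝ) : Prop where
  add : ∀ x y, N (x + y) ≤ N x + N y
  smul : ∀ (a : ℝ) x, N (a • x) = |a| * N x
  lb : ∀ x, c * ‖x‖ ≤ N x
  ub : ∀ x, N x ≤ C * ‖x‖
  cpos : 0 < c
  Cpos : 0 < C

/-- `μ(t)` -/
noncomputable def mu (N : YY → ℝ) (t : Nd) : ℝ := ⨅ φ : SS t, N (fY t + φ.1)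

namespace IsN

variable {N : YY → ℝ} {c C : ℝ}

lemma nonneg (h : IsN N c C) (x : YY) : 0 ≤ N x :=
  (mul_nonneg h.cpos.le (norm_nonneg x)).trans (h.lb x)

lemma neg (h : IsN N c C) (x : YY) : N (-x) = N x := by
  have := h.smul (-1) x
  simpa using this

lemma zero (h : IsN N c C) : N 0 = 0 := by
  have := h.smul 0 0
  simpa using this

lemma sum_le (h : IsN N c C) (s : Finset ℕ) (g : ℕ → YY) : N (∑ i ∈ s, g i) ≤ ∑ i ∈ s, N (g i) := by
  classical
  induction s using Finset.induction_on with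
  | empty => simp [h.zero]
  | insert a s ha ih =>
    rw [Finset.sum_insert ha, Finset.sum_insert ha]
    exact (h.add _ _).trans (by linarith)

lemma bdd (h : IsN N c C) (t : Nd) : BddBelow (range fun φ : SS t => N (fY t + φ.1)) :=
  ⟨0, by rintro _ ⟨φ, rfl⟩; exact h.nonneg _⟩

lemma mu_le (h : IsN N c C) {t : Nd} {φ : YY} (hφ : φ ∈ SS t) : mu N t ≤ N (fY t + φ) :=
  ciInf_le (h.bdd t) ⟨φ, hφ⟩

lemma mu_mono (h : IsN N c C) {t u : Nd} (htu : t ≤ u) : mu N t ≤ mu N u := by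
  have : Nonempty (SS u) := ⟨⟨0, zero_mem_SS u⟩⟩
  refine le_ciInf fun φ => ?_
  have h1 : fY u + φ.1 = fY t + ((fY u - fY t) + φ.1) := by abel
  rw [h1]
  exact h.mu_le (SS_add (SS_sub htu) (SS_mono htu φ.2))

lemma mu_le_C (h : IsN N c C) (t : Nd) : mu N t ≤ C := by
  have h1 := h.mu_le (zero_mem_SS t)
  rw [add_zero] at h1
  have h2 := h.ub (fY t)
  have h3 := norm_fY_le t
  have h4 := h.Cpos
  nlinarith

lemma exists_step (h : IsN N c C) (t : Nd) (ε : ℝ) (hε : 0 < ε) :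
    ∃ t' : Nd, t ≤ t' ∧ ∀ v, t' ≤ v → mu N v ≤ mu N t' + ε := by
  have : Nonempty (Ici t) := ⟨⟨t, mem_Ici.2 le_rfl⟩⟩
  have hb : BddAbove (range fun v : Ici t => mu N v.1) :=
    ⟨C, by rintro _ ⟨v, rfl⟩; exact h.mu_le_C _⟩
  obtain ⟨v, hv⟩ := exists_lt_of_lt_ciSup (sub_lt_self (⨆ v : Ici t, mu N v.1) hε)
  refine ⟨v.1, v.2, fun w hw => ?_⟩
  have := le_ciSup hb ⟨w, (mem_Ici.1 v.2).trans hw⟩
  simp only at this
  linarith

lemma exists_star (h : IsN N c C) : ∃ t : Nd, ∀ u, t ≤ u → mu N u = mu N t := by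
  have hne : Nonempty Om := by
    by_contra hc
    rw [not_nonempty_iff] at hc
    apply Om.not_countable
    rw [Set.univ_eq_empty_iff.2 hc]
    exact countable_empty
  choose g hg1 hg2 using fun (t : Nd) (n : ℕ) =>
    h.exists_step t (1 / ((n : ℝ) + 1)) Nat.one_div_pos_of_nat
  let T : ℕ → Nd := fun n => Nat.rec ⟨hne.some, fun _ => 0, fun _ _ => rfl⟩ (fun n t => g t n) n
  have hT : ∀ n, T (n + 1) = g (T n) n := fun n => rfl
  obtain ⟨s, hs⟩ := Nd.exists_upper T fun n => by rw [hT]; exact hg1 _ _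
  refine ⟨s, fun u hu => le_antisymm ?_ (h.mu_mono hu)⟩
  by_contra hc
  push Not at hc
  obtain ⟨n, hn⟩ := exists_nat_one_div_lt (sub_pos.2 hc)
  have h1 : g (T n) n ≤ s := (hT n) ▸ hs (n + 1)
  have h2 := hg2 (T n) n u (h1.trans hu)
  have h3 := h.mu_mono h1
  linarith

lemma N_fY_le (h : IsN N c C) {t : Nd} {m : ℝ} (hm0 : 0 ≤ m)
    (hm : ∀ i : ℕ, mu N (t.suc i) = m) : N (fY t) ≤ m := by
  classical
  refine le_of_forall_pos_le_add fun ε hε => ?_
  have hex : ∀ i : ℕ, ∃ ψ ∈ SS (t.suc i), N (fY (t.suc i) + ψ) < m + ε / 2 := by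
    intro i
    have : Nonempty (SS (t.suc i)) := ⟨⟨0, zero_mem_SS _⟩⟩
    obtain ⟨φ, hφ⟩ := exists_lt_of_ciInf_lt (f := fun φ : SS (t.suc i) => N (fY (t.suc i) + φ.1))
      (a := m + ε / 2) (by
        have := hm i
        unfold mu at this
        rw [this]
        linarith)
    exact ⟨φ.1, φ.2, hφ⟩
  choose ψ hψ hψN using hex
  set η : ℕ → YY := fun i => (fY (t.suc i) - fY t) + ψ i with hη
  have hfη : ∀ i, fY t + η i = fY (t.suc i) + ψ i := fun i => by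
    change fY t + ((fY (t.suc i) - fY t) + ψ i) = _
    abel
  have hsupp : ∀ i u, ev u (η i) ≠ 0 → t < u ∧ u.val t.len = i := by
    intro i u hu
    have ht : t < u := by
      by_contra hc
      exact hu ((SS_add (SS_sub (t.le_suc i)) (SS_mono (t.le_suc i) (hψ i))) u hc)
    refine ⟨ht, ?_⟩
    by_cases h1 : u ≤ t.suc i
    · exact Nd.val_of_lt_of_le_suc ht h1
    · by_cases h2 : t.suc i < u
      · exact Nd.val_of_suc_le h2.le
      · exfalso
        apply hu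
        rw [hη]
        simp only
        rw [map_add, map_sub, ev_fY, ev_fY, if_neg h1, if_neg (not_le_of_gt ht), hψ i u h2]
        simp
  set B : ℝ := (m + ε / 2) / c + 1 with hB
  have hB0 : 0 ≤ B := by
    have := h.cpos
    positivity
  have hηB : ∀ i, ‖η i‖ ≤ B := by
    intro i
    have h1 : ‖fY (t.suc i) + ψ i‖ ≤ (m + ε / 2) / c := by
      rw [le_div_iff₀ h.cpos, mul_comm]
      exact (h.lb _).trans (hψN i).le
    have h2 : η i = (fY (t.suc i) + ψ i) - fY t := by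
      change (fY (t.suc i) - fY t) + ψ i = _
      abel
    rw [h2]
    exact (norm_sub_le _ _).trans (add_le_add h1 (norm_fY_le t))
  have hsum : ∀ k : ℕ, ‖∑ i ∈ Finset.range k, η i‖ ≤ B := by
    intro k
    refine YY.norm_le _ hB0 fun u => ?_
    rw [map_sum]
    have h1 : ∀ i ∈ Finset.range k, i ≠ u.val t.len → ev u (η i) = 0 := by
      intro i _ hi
      by_contra hc
      exact hi (hsupp i u hc).2.symm
    by_cases h2 : u.val t.len ∈ Finset.range k
    · rw [Finset.sum_eq_single_of_mem _ h2 h1]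
      exact (YY.abs_ev_le _ _).trans (hηB _)
    · rw [Finset.sum_eq_zero fun i hi => h1 i hi fun hc => h2 (hc ▸ hi), abs_zero]
      exact hB0
  obtain ⟨k, hk⟩ := exists_nat_gt (C * B / (ε / 2))
  have hk0 : (0 : ℝ) < k := lt_of_le_of_lt (by have := h.Cpos; positivity) hk
  have hkk : C * B ≤ k * (ε / 2) := by
    rw [div_lt_iff₀ (by positivity)] at hk
    exact hk.le
  set S : YY := ∑ i ∈ Finset.range k, η i with hS
  have h1 : (k : ℝ) • fY t = ∑ i ∈ Finset.range k, (fY (t.suc i) + ψ i) + -S := by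
    rw [hS, Finset.sum_congr rfl fun i _ => (hfη i).symm, Finset.sum_add_distrib,
      Finset.sum_const, Finset.card_range]
    rw [Nat.cast_smul_eq_nsmul]
    abel
  have h2 : N ((k : ℝ) • fY t) ≤ k * (m + ε / 2) + C * B := by
    rw [h1]
    refine (h.add _ _).trans (add_le_add ?_ ?_)
    · refine (h.sum_le _ _).trans ?_
      refine (Finset.sum_le_sum fun i _ => (hψN i).le).trans ?_
      rw [Finset.sum_const, Finset.card_range, nsmul_eq_mul]
    · rw [h.neg]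
      exact (h.ub _).trans (mul_le_mul_of_nonneg_left (hsum k) h.Cpos.le)
  rw [h.smul, abs_of_pos hk0] at h2
  have h3 : (k : ℝ) * N (fY t) ≤ k * (m + ε) := by linarith
  exact le_of_mul_le_mul_left h3 hk0

end IsN

/-- MODULE T: `Y` is not LUR renormable. -/
theorem not_LUR_Y : ¬ ∃ N : YV (univ : Set Nd) → ℝ,
    (∀ x y : YV (univ : Set Nd), N (x + y) ≤ N x + N y) ∧
      (∀ (a : ℝ) (x : YV (univ : Set Nd)), N (a • x) = |a| * N x) ∧
      (∃ c C : ℝ, 0 < c ∧ 0 < C ∧ ∀ x : YV (univ : Set Nd), c * ‖x‖ ≤ N x ∧ N x ≤ C * ‖x‖) ∧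
      (∀ x : YV (univ : Set Nd), N x = 1 → ∀ ε : ℝ, 0 < ε → ∃ δ : ℝ, 0 < δ ∧
        ∀ y : YV (univ : Set Nd), N y = 1 → 2 - δ < N (x + y) → N (x - y) < ε) := by
  classical
  rintro ⟨N, hadd, hsmul, ⟨c, C, hc, hC, hb⟩, hL⟩
  have h : IsN N c C := ⟨hadd, hsmul, fun x => (hb x).1, fun x => (hb x).2, hc, hC⟩
  obtain ⟨t, ht⟩ := h.exists_star
  set m := mu N t with hm
  have hm0 : 0 ≤ m := by
    have : Nonempty (SS t) := ⟨⟨0, zero_mem_SS t⟩⟩
    exact le_ciInf fun φ => h.nonneg _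
  have key : ∀ u, t ≤ u → N (fY u) = m := by
    intro u hu
    apply le_antisymm
    · exact h.N_fY_le hm0 fun i => ht _ (hu.trans (u.le_suc i))
    · have := h.mu_le (zero_mem_SS u)
      rw [add_zero, ht u hu] at this
      exact this
  have hmpos : 0 < m := by
    have h1 := h.lb (fY t)
    rw [key t le_rfl] at h1
    have h2 := one_le_norm_fY t
    nlinarith
  set y := fY (t.suc 0) with hy
  have hx1 : N (m⁻¹ • fY t) = 1 := by
    rw [hsmul, key t le_rfl, abs_of_pos (inv_pos.2 hmpos), inv_mul_cancel₀ hmpos.ne']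
  have hy1 : N (m⁻¹ • y) = 1 := by
    rw [hsmul, key _ (t.le_suc 0), abs_of_pos (inv_pos.2 hmpos), inv_mul_cancel₀ hmpos.ne']
  have hxy : 2 ≤ N (m⁻¹ • fY t + m⁻¹ • y) := by
    have h1 : m⁻¹ • fY t + m⁻¹ • y = (2 * m⁻¹) • (fY t + (2 : ℝ)⁻¹ • (y - fY t)) := by
      rw [smul_add, smul_smul, mul_comm 2 m⁻¹, mul_assoc, mul_inv_cancel₀ (by norm_num : (2:ℝ) ≠ 0),
        mul_one, smul_sub, mul_smul, two_smul, smul_add]
      abel
    rw [h1, hsmul, abs_of_pos (by positivity)]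
    have h2 := h.mu_le (SS_smul (2 : ℝ)⁻¹ (SS_sub (t.le_suc 0)))
    rw [← hm] at h2
    calc (2 : ℝ) = 2 * m⁻¹ * m := by
          rw [mul_assoc, inv_mul_cancel₀ hmpos.ne', mul_one]
      _ ≤ _ := mul_le_mul_of_nonneg_left h2 (by positivity)
  have hlt : ∀ ε : ℝ, 0 < ε → N (m⁻¹ • fY t - m⁻¹ • y) < ε := by
    intro ε hε
    obtain ⟨δ, hδ, h1⟩ := hL _ hx1 ε hε
    exact h1 _ hy1 (by linarith)
  have h0 : N (m⁻¹ • fY t - m⁻¹ • y) ≤ 0 := le_of_forall_pos_le_add fun ε hε => by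
    have := hlt ε hε
    linarith
  have h1 := h.lb (m⁻¹ • fY t - m⁻¹ • y)
  have h2 : ‖m⁻¹ • fY t - m⁻¹ • y‖ = 0 := by
    have := norm_nonneg (m⁻¹ • fY t - m⁻¹ • y)
    nlinarith
  have h3 : m⁻¹ • fY t = m⁻¹ • y := sub_eq_zero.1 (norm_eq_zero.1 h2)
  have h4 : fY t = y := smul_right_injective _ (inv_ne_zero hmpos.ne') h3
  have h5 := congrArg (ev (t.suc 0)) h4
  rw [hy, ev_fY, ev_fY, if_neg (not_le_of_gt (t.lt_suc 0)), if_pos le_rfl] at h5
  exact zero_ne_one h5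

end Pool.Agent.LUR
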