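import Pool.Agent.Helper96.LUR.Space

/-!
# Module R: the retractions `r_V`
-/

set_option autoImplicit false

open Filter Topology Set
open scoped ENNReal Cardinal

namespace Pool.Agent.LUR

section
variable {T : Type}

lemma hV_nonneg (V : Set T) (f : LI T) : 0 ≤ hV V f :=
  Real.iSup_nonneg fun _ => abs_nonneg _

lemma hV_bdd (V : Set T) (f : LI T) : BddAbove (range fun u : {u // u ∉ V} => |f u|) := by
  refine ⟨‖f‖, ?_⟩
  rintro _ ⟨u, rfl⟩
  exact LI.abs_le f u

lemma le_hV {V : Set T} (f : LI T) {u : T} (hu : u ∉ V) : |f u| ≤ hV V f :=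
  le_ciSup (hV_bdd V f) (⟨u, hu⟩ : {u // u ∉ V})

lemma hV_le {V : Set T} {f : LI T} {c : ℝ} (hc : 0 ≤ c) (h : ∀ u, u ∉ V → |f u| ≤ c) :
    hV V f ≤ c :=
  Real.iSup_le (fun u => h u.1 u.2) hc

lemma hV_le_add (V : Set T) (f g : LI T) : hV V f ≤ hV V g + ‖f - g‖ := by
  refine hV_le (add_nonneg (hV_nonneg V g) (norm_nonneg _)) fun u hu => ?_
  have h1 := le_hV g hu
  have h2 := LI.abs_le (f - g) u
  rw [LI.sub_apply] at h2
  have h3 : |f u| ≤ |g u| + |f u - g u| := by
    have := abs_add_le (g u) (f u - g u)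
    rwa [add_sub_cancel] at this
  linarith

lemma soft_sub_le {h k x y c : ℝ} (h1 : |x - y| ≤ c) (h2 : |h - k| ≤ c) :
    |soft h x - soft k y| ≤ 2 * c := by
  unfold soft
  have h3 : |min x h - min y k| ≤ c :=
    (abs_min_sub_min_le_max x h y k).trans (max_le h1 h2)
  have h4 : |max (-h) (min x h) - max (-k) (min y k)| ≤ c := by
    refine (abs_max_sub_max_le_max _ _ _ _).trans (max_le ?_ h3)
    rw [neg_sub_neg, abs_sub_comm]
    exact h2
  have h5 := abs_le.1 h1
  have h6 := abs_le.1 h4
  rw [abs_le]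
  constructor <;> linarith [h5.1, h5.2, h6.1, h6.2]

/-- MODULE R (retractions). File: Pool/Agent/Helper96/LUR/Retract.lean -/
theorem norm_rV_sub_le (V : Set T) (f g : LI T) : ‖rV V f - rV V g‖ ≤ 2 * ‖f - g‖ := by
  classical
  refine LI.norm_le _ (by positivity) fun u => ?_
  rw [LI.sub_apply, rV_apply, rV_apply]
  split_ifs with hu
  · refine soft_sub_le ?_ ?_
    · have := LI.abs_le (f - g) u
      rwa [LI.sub_apply] at this
    · have h1 := hV_le_add V f g
      have h2 := hV_le_add V g f
      rw [norm_sub_rev] at h2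
      rw [abs_le]
      constructor <;> linarith
  · simp

lemma soft_zero_right {h : ℝ} (hh : 0 ≤ h) : soft h 0 = 0 := by
  unfold soft
  rw [min_eq_left hh, max_eq_right (by linarith), sub_zero]

lemma soft_zero_left (x : ℝ) : soft 0 x = x := by
  unfold soft
  rw [neg_zero, max_eq_left (min_le_right _ _), sub_zero]

lemma soft_of_abs_le {h x : ℝ} (hx : |x| ≤ h) : soft h x = 0 := by
  unfold soft
  have := abs_le.1 hx
  rw [min_eq_left this.2, max_eq_right this.1, sub_self]

theorem rV_zero (V : Set T) : rV V (0 : LI T) = 0 := by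
  classical
  ext u
  rw [rV_apply, LI.zero_apply, soft_zero_right (hV_nonneg _ _), ite_self]

theorem rV_empty (f : LI T) : rV ∅ f = 0 := by
  classical
  ext u
  rw [rV_apply, if_neg (notMem_empty u), LI.zero_apply]

/-- `g` is a combination of the indicators of `Iic s`, `s ∈ S`, described pointwise -/
def Ad [PartialOrder T] (S : Set T) (g : LI T) : Prop :=
  (∀ u, (∀ s ∈ S, ¬ u ≤ s) → g u = 0) ∧ (∀ u v, (∀ s ∈ S, (u ≤ s ↔ v ≤ s)) → g u = g v)

lemma Ad.mono [PartialOrder T] {S S' : Set T} (h : S ⊆ S') {g : LI T} (hg : Ad S g) :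
    Ad S' g :=
  ⟨fun u hu => hg.1 u fun s hs => hu s (h hs), fun u v huv => hg.2 u v fun s hs => huv s (h hs)⟩

lemma Ad.exists [PartialOrder T] {f : LI T} (hf : f ∈ Submodule.span ℝ (ft '' (univ : Set T))) :
    ∃ S : Set T, S.Finite ∧ Ad S f := by
  classical
  induction hf using Submodule.span_induction with
  | mem x hx =>
    obtain ⟨t, -, rfl⟩ := hx
    refine ⟨{t}, finite_singleton t, fun u hu => ?_, fun u v huv => ?_⟩
    · rw [ft_apply, if_neg (hu t rfl)]
    · rw [ft_apply, ft_apply]
      have := huv t rfl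
      simp only [this]
  | zero => exact ⟨∅, finite_empty, fun u _ => rfl, fun u v _ => rfl⟩
  | add x y _ _ hx hy =>
    obtain ⟨S, hS, h1⟩ := hx
    obtain ⟨S', hS', h2⟩ := hy
    have h1 := h1.mono (S' := S ∪ S') subset_union_left
    have h2 := h2.mono (S' := S ∪ S') subset_union_right
    refine ⟨S ∪ S', hS.union hS', fun u hu => ?_, fun u v huv => ?_⟩
    · rw [LI.add_apply, h1.1 u hu, h2.1 u hu, add_zero]
    · rw [LI.add_apply, LI.add_apply, h1.2 u v huv, h2.2 u v huv]
  | smul a x _ hx =>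
    obtain ⟨S, hS, h1⟩ := hx
    refine ⟨S, hS, fun u hu => ?_, fun u v huv => ?_⟩
    · rw [LI.smul_apply, h1.1 u hu, mul_zero]
    · rw [LI.smul_apply, LI.smul_apply, h1.2 u v huv]

variable [SemilatticeInf T]

lemma Ad.exists_infClosed {f : LI T} (hf : f ∈ Submodule.span ℝ (ft '' (univ : Set T))) :
    ∃ S : Set T, S.Finite ∧ InfClosed S ∧ Ad S f := by
  obtain ⟨S, hS, h⟩ := Ad.exists hf
  exact ⟨infClosure S, hS.infClosure, infClosed_infClosure, h.mono subset_infClosure⟩

lemma Ad.mem_span (n : ℕ) : ∀ (S : Finset T), S.card = n → InfClosed (S : Set T) →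
    ∀ g : LI T, Ad (S : Set T) g → g ∈ Submodule.span ℝ (ft '' (S : Set T)) := by
  classical
  induction n with
  | zero =>
    intro S hS _ g hg
    have hS : S = ∅ := Finset.card_eq_zero.1 hS
    have : g = 0 := by
      ext u
      exact hg.1 u (by simp [hS])
    rw [this]
    exact Submodule.zero_mem _
  | succ n ih =>
    intro S hS hinf g hg
    have hne : S.Nonempty := by
      rw [← Finset.card_pos]; omega
    obtain ⟨s, hs⟩ := S.exists_maximal hne
    have hmax : ∀ t ∈ S, s ≤ t → t = s := fun t ht hst => le_antisymm (hs.2 ht hst) hst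
    have hsS : s ∈ S := hs.1
    -- key: if `u ≤ s` and `u` is below another element
    have key : ∀ u, u ≤ s → ∀ t ∈ S, t ≠ s → u ≤ t → ∃ r ∈ S, r ≠ s ∧ u ≤ r ∧ r ≤ s := by
      intro u hus t ht hts hut
      refine ⟨s ⊓ t, hinf hsS ht, fun h => hts (hmax t ht ?_), le_inf hus hut, inf_le_left⟩
      rw [← h]
      exact inf_le_right
    have hzero : ∀ u, (∀ t ∈ S, t ≠ s → ¬ u ≤ t) → (g - g s • ft s) u = 0 := by
      intro u hu
      rw [LI.sub_apply, LI.smul_apply, ft_apply]
      by_cases hus : u ≤ s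
      · rw [if_pos hus, mul_one, sub_eq_zero]
        refine hg.2 u s fun t ht => ?_
        by_cases hts : t = s
        · subst hts
          simp [hus]
        · exact ⟨fun h => absurd h (hu t ht hts), fun h => absurd (hmax t ht h) hts⟩
      · rw [if_neg hus, mul_zero, sub_zero]
        refine hg.1 u fun t ht => ?_
        by_cases hts : t = s
        · subst hts
          exact hus
        · exact hu t ht hts
    have hAd : Ad ((S.erase s : Finset T) : Set T) (g - g s • ft s) := by
      refine ⟨fun u hu => hzero u fun t ht hts => hu t ?_, fun u v huv => ?_⟩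
      · exact Finset.mem_coe.2 (Finset.mem_erase.2 ⟨hts, ht⟩)
      · have huv' : ∀ t ∈ S, t ≠ s → (u ≤ t ↔ v ≤ t) := fun t ht hts =>
          huv t (Finset.mem_coe.2 (Finset.mem_erase.2 ⟨hts, ht⟩))
        by_cases hcase : ∃ t ∈ S, t ≠ s ∧ u ≤ t
        · obtain ⟨t, ht, hts, hut⟩ := hcase
          have hvt := (huv' t ht hts).1 hut
          have hs' : u ≤ s ↔ v ≤ s := by
            constructor
            · intro h
              obtain ⟨r, hr, hrs, hur, hrs'⟩ := key u h t ht hts hut
              exact ((huv' r hr hrs).1 hur).trans hrs'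
            · intro h
              obtain ⟨r, hr, hrs, hur, hrs'⟩ := key v h t ht hts hvt
              exact ((huv' r hr hrs).2 hur).trans hrs'
          rw [LI.sub_apply, LI.smul_apply, ft_apply, LI.sub_apply, LI.smul_apply, ft_apply]
          have hguv : g u = g v := by
            refine hg.2 u v fun t ht => ?_
            by_cases hts : t = s
            · subst hts
              exact hs'
            · exact huv' t ht hts
          simp only [hs', hguv]
        · push Not at hcase
          rw [hzero u hcase, hzero v fun t ht hts hvt =>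
            hcase t ht hts ((huv' t ht hts).2 hvt)]
    have hinf' : InfClosed ((S.erase s : Finset T) : Set T) := by
      intro a ha b hb
      have ha' := Finset.mem_erase.1 (Finset.mem_coe.1 ha)
      have hb' := Finset.mem_erase.1 (Finset.mem_coe.1 hb)
      refine Finset.mem_coe.2 (Finset.mem_erase.2 ⟨fun h => ha'.1 (hmax a ha'.2 ?_), hinf ha'.2 hb'.2⟩)
      rw [← h]
      exact inf_le_left
    have h1 := ih (S.erase s) (by rw [Finset.card_erase_of_mem hsS, hS]; rfl) hinf' _ hAd
    have h2 : g = (g - g s • ft s) + g s • ft s := by abel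
    rw [h2]
    refine Submodule.add_mem _ (Submodule.span_mono (image_mono ?_) h1)
      (Submodule.smul_mem _ _ (Submodule.subset_span ⟨s, hsS, rfl⟩))
    intro t ht
    exact (Finset.mem_erase.1 (Finset.mem_coe.1 ht)).2

/-- the smallest element of `S` above `u` -/
lemma exists_min_above {S : Set T} (hS : S.Finite) (hinf : InfClosed S) {u : T}
    (h : ∃ s ∈ S, u ≤ s) : ∃ m ∈ S, u ≤ m ∧ ∀ s ∈ S, u ≤ s → m ≤ s := by
  classical
  obtain ⟨s, hs, hus⟩ := h
  have hfin : (S ∩ Ici u).Finite := hS.inter_of_left _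
  have hne : hfin.toFinset.Nonempty := ⟨s, by simpa using ⟨hs, hus⟩⟩
  refine ⟨hfin.toFinset.inf' hne id, ?_, ?_, ?_⟩
  · have : hfin.toFinset.inf' hne id ∈ S ∩ Ici u := by
      refine Finset.inf'_induction hne id (p := fun x => x ∈ S ∩ Ici u) ?_ ?_
      · intro a ha b hb
        exact ⟨hinf ha.1 hb.1, le_inf ha.2 hb.2⟩
      · intro b hb
        simpa using hb
    exact this.1
  · refine Finset.le_inf' hne id fun b hb => ?_
    have : b ∈ S ∩ Ici u := by simpa using hb
    exact this.2
  · intro t ht hut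
    exact Finset.inf'_le id (by simpa using ⟨ht, hut⟩)

lemma rV_zero_of {V S : Set T} (hS : S.Finite) (hinf : InfClosed S)
    {f : LI T} (hf : Ad S f) {u : T} (hu : ∀ s ∈ S, s ∈ V → ¬ u ≤ s) : rV V f u = 0 := by
  classical
  rw [rV_apply]
  split_ifs with huV
  · by_cases h : ∃ s ∈ S, u ≤ s
    · obtain ⟨m, hm, hum, hmin⟩ := exists_min_above hS hinf h
      have hmV : m ∉ V := fun hmV => hu m hm hmV hum
      have hfu : f u = f m := hf.2 u m fun s hs => ⟨hmin s hs, hum.trans⟩
      rw [hfu]
      exact soft_of_abs_le (le_hV f hmV)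
    · push Not at h
      rw [hf.1 u h, soft_zero_right (hV_nonneg _ _)]
  · rfl

lemma hV_le_of_trace {V V' S : Set T} (hV1 : IsLowerSet V) (hS : S.Finite) (hinf : InfClosed S)
    (h : ∀ s ∈ S, (s ∈ V ↔ s ∈ V')) {f : LI T} (hf : Ad S f) : hV V f ≤ hV V' f := by
  refine hV_le (hV_nonneg _ _) fun u hu => ?_
  by_cases h' : ∃ s ∈ S, u ≤ s
  · obtain ⟨m, hm, hum, hmin⟩ := exists_min_above hS hinf h'
    have hmV : m ∉ V := fun hmV => hu (hV1 hum hmV)
    have hfu : f u = f m := hf.2 u m fun s hs => ⟨hmin s hs, hum.trans⟩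
    rw [hfu]
    exact le_hV f fun hmV' => hmV ((h m hm).2 hmV')
  · push Not at h'
    rw [hf.1 u h', abs_zero]
    exact hV_nonneg _ _

lemma Ad.rV {V S : Set T} (hV1 : IsLowerSet V) (hS : S.Finite) (hinf : InfClosed S)
    {f : LI T} (hf : Ad S f) : Ad (S ∩ V) (rV V f) := by
  classical
  have h0 : ∀ u, (∀ s ∈ S ∩ V, ¬ u ≤ s) → Pool.Agent.LUR.rV V f u = 0 := fun u hu =>
    rV_zero_of hS hinf hf fun s hs hsV => hu s ⟨hs, hsV⟩
  refine ⟨h0, fun u v huv => ?_⟩
  by_cases h : ∃ s ∈ S ∩ V, u ≤ s
  · obtain ⟨s, hs, hus⟩ := h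
    have hvs := (huv s hs).1 hus
    have huV : u ∈ V := hV1 hus hs.2
    have hvV : v ∈ V := hV1 hvs hs.2
    rw [rV_apply, rV_apply, if_pos huV, if_pos hvV]
    congr 1
    refine hf.2 u v fun t ht => ?_
    have hst : t ⊓ s ∈ S ∩ V := ⟨hinf ht hs.1, hV1 inf_le_right hs.2⟩
    constructor
    · intro hut
      exact ((huv _ hst).1 (le_inf hut hus)).trans inf_le_left
    · intro hvt
      exact ((huv _ hst).2 (le_inf hvt hvs)).trans inf_le_left
  · push Not at h
    rw [h0 u h, h0 v fun s hs hvs => h s hs ((huv s hs).2 hvs)]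

lemma rV_mem_span {V : Set T} (hV1 : IsLowerSet V) {f : LI T}
    (hf : f ∈ Submodule.span ℝ (ft '' (univ : Set T))) :
    rV V f ∈ Submodule.span ℝ (ft '' V) := by
  classical
  obtain ⟨S, hS, hinf, hAd⟩ := Ad.exists_infClosed hf
  have h1 := hAd.rV hV1 hS hinf
  have hfin : (S ∩ V).Finite := hS.inter_of_left _
  have hinf2 : InfClosed (S ∩ V) := fun a ha b hb =>
    ⟨hinf ha.1 hb.1, hV1 inf_le_left ha.2⟩
  have h2 := Ad.mem_span _ hfin.toFinset rfl (by simpa using hinf2) (Pool.Agent.LUR.rV V f)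
    (by simpa using h1)
  refine Submodule.span_mono (image_mono ?_) h2
  intro t ht
  have : t ∈ S ∩ V := by simpa using ht
  exact this.2

omit [SemilatticeInf T] in
lemma rV_continuous (V : Set T) : Continuous (rV V) := by
  have : LipschitzWith 2 (rV V) := by
    refine LipschitzWith.of_dist_le_mul fun f g => ?_
    rw [dist_eq_norm, dist_eq_norm]
    exact norm_rV_sub_le V f g
  exact this.continuous

theorem rV_mem {V : Set T} (hV : IsLowerSet V) {f : LI T} (hf : f ∈ YV (univ : Set T)) :
    rV V f ∈ YV V := by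
  have h1 : f ∈ closure ((Submodule.span ℝ (ft '' (univ : Set T)) : Submodule ℝ (LI T)) :
      Set (LI T)) := by
    rw [← Submodule.topologicalClosure_coe]
    exact hf
  have h2 : rV V f ∈ closure ((Submodule.span ℝ (ft '' V) : Submodule ℝ (LI T)) : Set (LI T)) := by
    refine map_mem_closure (rV_continuous V) h1 ?_
    intro g hg
    exact rV_mem_span hV hg
  rw [← Submodule.topologicalClosure_coe] at h2
  exact h2

lemma YV_zero_off {V : Set T} (hV : IsLowerSet V) {f : LI T} (hf : f ∈ YV V) {u : T}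
    (hu : u ∉ V) : f u = 0 := by
  classical
  have h1 : f ∈ closure ((Submodule.span ℝ (ft '' V) : Submodule ℝ (LI T)) :
      Set (LI T)) := by
    rw [← Submodule.topologicalClosure_coe]
    exact hf
  have hcl : IsClosed {g : LI T | g u = 0} := by
    have hc : Continuous fun g : LI T => g u := by
      have : LipschitzWith 1 fun g : LI T => g u := by
        refine LipschitzWith.of_dist_le_mul fun f g => ?_
        rw [dist_eq_norm, dist_eq_norm, Real.norm_eq_abs]
        have := LI.abs_le (f - g) u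
        rw [LI.sub_apply] at this
        simpa using this
      exact this.continuous
    exact isClosed_eq hc continuous_const
  have hsub : ((Submodule.span ℝ (ft '' V) : Submodule ℝ (LI T)) : Set (LI T)) ⊆
      {g : LI T | g u = 0} := by
    intro g hg
    replace hg : g ∈ Submodule.span ℝ (ft '' V) := hg
    show g u = 0
    induction hg using Submodule.span_induction with
    | mem x hx =>
      obtain ⟨t, ht, rfl⟩ := hx
      rw [ft_apply, if_neg fun h => hu (hV h ht)]
    | zero => rfl
    | add x y _ _ hx hy => rw [LI.add_apply, hx, hy, add_zero]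
    | smul a x _ hx => rw [LI.smul_apply, hx, mul_zero]
  exact closure_minimal hsub hcl h1

theorem rV_id {V : Set T} (hV : IsLowerSet V) {f : LI T} (hf : f ∈ YV V) : rV V f = f := by
  classical
  have h0 : Pool.Agent.LUR.hV V f = 0 :=
    le_antisymm (hV_le le_rfl fun u hu => by rw [YV_zero_off hV hf hu, abs_zero]) (hV_nonneg _ _)
  ext u
  rw [rV_apply, h0, soft_zero_left]
  split_ifs with hu
  · rfl
  · exact (YV_zero_off hV hf hu).symm

theorem rV_dep {f : LI T} (hf : f ∈ Submodule.span ℝ (ft '' (univ : Set T))) :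
    ∃ S : Finset T, ∀ V V' : Set T, IsLowerSet V → IsLowerSet V' →
      (∀ s ∈ S, (s ∈ V ↔ s ∈ V')) → rV V f = rV V' f := by
  classical
  obtain ⟨S, hS, hinf, hAd⟩ := Ad.exists_infClosed hf
  refine ⟨hS.toFinset, fun V V' hV1 hV2 h => ?_⟩
  have h : ∀ s ∈ S, (s ∈ V ↔ s ∈ V') := fun s hs => h s (by simpa using hs)
  have hh : hV V f = hV V' f :=
    le_antisymm (hV_le_of_trace hV1 hS hinf h hAd)
      (hV_le_of_trace hV2 hS hinf (fun s hs => (h s hs).symm) hAd)
  ext u
  by_cases hu : ∃ s ∈ S, s ∈ V ∧ u ≤ s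
  · obtain ⟨s, hs, hsV, hus⟩ := hu
    rw [rV_apply, rV_apply, if_pos (hV1 hus hsV), if_pos (hV2 hus ((h s hs).1 hsV)), hh]
  · push Not at hu
    rw [rV_zero_of hS hinf hAd hu, rV_zero_of hS hinf hAd fun s hs hsV' =>
      hu s hs ((h s hs).2 hsV')]

end

end Pool.Agent.LUR
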