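import Pool.Agent.Helper96.LUR.Defs

/-!
# The spaces `ℓ_∞(Γ)`, `Y_V`, the retractions `r_V`, the free space
-/

set_option autoImplicit false

open Filter Topology Set
open scoped ENNReal Cardinal

namespace Pool.Agent.LUR

/-- `ℓ_∞(Γ)`. -/
abbrev LI (Γ : Type) : Type := lp (fun _ : Γ => ℝ) ∞

/-- an element of `ℓ_∞` from a bounded function -/
def mkLI {Γ : Type} (f : Γ → ℝ) (C : ℝ) (h : ∀ x, |f x| ≤ C) : LI Γ :=
  ⟨f, memℓp_infty ⟨C, by rintro _ ⟨x, rfl⟩; simpa [Real.norm_eq_abs] using h x⟩⟩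

@[simp] lemma mkLI_apply {Γ : Type} (f : Γ → ℝ) (C : ℝ) (h : ∀ x, |f x| ≤ C) (x : Γ) :
    mkLI f C h x = f x := rfl

lemma LI.abs_le {Γ : Type} (f : LI Γ) (x : Γ) : |f x| ≤ ‖f‖ := by
  simpa [Real.norm_eq_abs] using lp.norm_apply_le_norm ENNReal.top_ne_zero f x

lemma LI.norm_le {Γ : Type} (f : LI Γ) {C : ℝ} (hC : 0 ≤ C) (h : ∀ x, |f x| ≤ C) : ‖f‖ ≤ C :=
  lp.norm_le_of_forall_le hC fun x => by simpa [Real.norm_eq_abs] using h x

@[ext] lemma LI.ext {Γ : Type} {f g : LI Γ} (h : ∀ x, f x = g x) : f = g :=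
  lp.ext (funext h)

lemma LI.add_apply {Γ : Type} (f g : LI Γ) (x : Γ) : (f + g) x = f x + g x := rfl
lemma LI.sub_apply {Γ : Type} (f g : LI Γ) (x : Γ) : (f - g) x = f x - g x := rfl
lemma LI.neg_apply {Γ : Type} (f : LI Γ) (x : Γ) : (-f) x = -f x := rfl
lemma LI.zero_apply {Γ : Type} (x : Γ) : (0 : LI Γ) x = 0 := rfl
lemma LI.smul_apply {Γ : Type} (c : ℝ) (f : LI Γ) (x : Γ) : (c • f) x = c * f x := rfl

section Semilattice

variable {T : Type} [PartialOrder T]

open Classical in
/-- the indicator function of `Iic t` -/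
noncomputable def ft (t : T) : LI T :=
  mkLI (fun u => if u ≤ t then 1 else 0) 1 (fun u => by split_ifs <;> simp)

open Classical in
lemma ft_apply (t u : T) : ft t u = if u ≤ t then 1 else 0 := rfl

/-- `Y_V`: closed span of the `ft t`, `t ∈ V`. -/
noncomputable def YV (V : Set T) : Submodule ℝ (LI T) :=
  (Submodule.span ℝ (ft '' V)).topologicalClosure

/-- soft thresholding -/
def soft (h x : ℝ) : ℝ := x - max (-h) (min x h)

/-- `sup_{u ∉ V} |f u|` -/
noncomputable def hV (V : Set T) (f : LI T) : ℝ := ⨆ u : {u // u ∉ V}, |f u|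

open Classical in
/-- the retraction `r_V` on `ℓ_∞(T)` -/
noncomputable def rV (V : Set T) (f : LI T) : LI T :=
  mkLI (fun u => if u ∈ V then soft (hV V f) (f u) else 0) (‖f‖ + |hV V f|) (by
    intro u
    have h1 := LI.abs_le f u
    split_ifs with hu
    · unfold soft
      have h3 : |max (-hV V f) (min (f u) (hV V f))| ≤ |hV V f| := by
        rcases le_total 0 (hV V f) with h | h
        · rw [abs_of_nonneg h, abs_le]
          exact ⟨le_max_left _ _, max_le (by linarith) (min_le_right _ _)⟩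
        · rw [abs_of_nonpos h, abs_le]
          constructor
          · have := le_max_left (-hV V f) (min (f u) (hV V f)); linarith
          · exact max_le le_rfl ((min_le_right _ _).trans (by linarith))
      have := abs_sub (f u) (max (-hV V f) (min (f u) (hV V f)))
      linarith
    · rw [abs_zero]
      positivity)

omit [PartialOrder T] in
open Classical in
lemma rV_apply (V : Set T) (f : LI T) (u : T) :
    rV V f u = if u ∈ V then soft (hV V f) (f u) else 0 := rfl

end Semilattice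

/-! ### The concrete tree -/

/-- a well-order of type `ω₁` -/
abbrev Om : Type := (Cardinal.aleph 1).ord.ToType

/-- Nodes of the tree: functions from a proper initial segment of `ω₁` to `ℕ` (extended by zero). -/
@[ext] structure Nd where
  len : Om
  val : Om → ℕ
  zero : ∀ x, len ≤ x → val x = 0

instance : PartialOrder Nd where
  le s t := s.len ≤ t.len ∧ ∀ x < s.len, s.val x = t.val x
  le_refl s := ⟨le_rfl, fun _ _ => rfl⟩
  le_trans r s t h1 h2 := ⟨h1.1.trans h2.1, fun x hx =>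
    (h1.2 x hx).trans (h2.2 x (hx.trans_le h1.1))⟩
  le_antisymm s t h1 h2 := by
    have hl : s.len = t.len := le_antisymm h1.1 h2.1
    ext x
    · exact hl
    · by_cases hx : x < s.len
      · exact h1.2 x hx
      · rw [s.zero x (not_lt.1 hx), t.zero x (hl ▸ not_lt.1 hx)]

lemma Nd.le_def (s t : Nd) : s ≤ t ↔ s.len ≤ t.len ∧ ∀ x < s.len, s.val x = t.val x := Iff.rfl

/-! ### Free space -/

/-- 1-Lipschitz functions vanishing at zero. -/
def Kh (Y : Type) [NormedAddCommGroup Y] : Type :=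
  {g : Y → ℝ // LipschitzWith 1 g ∧ g 0 = 0}

lemma Kh.abs_sub_le {Y : Type} [NormedAddCommGroup Y] (g : Kh Y) (y z : Y) :
    |g.1 y - g.1 z| ≤ ‖y - z‖ := by
  have := g.2.1.dist_le_mul y z
  simpa [Real.dist_eq, dist_eq_norm] using this

lemma Kh.abs_le {Y : Type} [NormedAddCommGroup Y] (g : Kh Y) (y : Y) :
    |g.1 y| ≤ ‖y‖ := by
  have := g.abs_sub_le y 0
  simpa [g.2.2] using this

/-- the evaluation -/
noncomputable def dl {Y : Type} [NormedAddCommGroup Y] (y : Y) : LI (Kh Y) :=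
  mkLI (fun g => g.1 y) ‖y‖ (fun g => g.abs_le y)

lemma dl_apply {Y : Type} [NormedAddCommGroup Y] (y : Y) (g : Kh Y) : dl y g = g.1 y := rfl

lemma norm_dl_sub_le {Y : Type} [NormedAddCommGroup Y] (y z : Y) :
    ‖dl y - dl z‖ ≤ ‖y - z‖ :=
  LI.norm_le _ (norm_nonneg _) fun g => g.abs_sub_le y z

lemma dl_zero {Y : Type} [NormedAddCommGroup Y] : dl (0 : Y) = 0 := by
  ext g; exact g.2.2

end Pool.Agent.LUR
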