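import Pool.Agent.Helper96.LUR.Space

/-!
# The tree `Nd`: infima, countable initial segments, chains, upper bounds of sequences, successors
-/

set_option autoImplicit false

open Filter Topology Set
open scoped ENNReal Cardinal

namespace Pool.Agent.LUR

lemma Om.countable_Iio (a : Om) : (Iio a).Countable := by
  rw [← Cardinal.le_aleph0_iff_set_countable]
  have h : #(Iio a) < Cardinal.aleph 1 := by simpa using Cardinal.mk_Iio_lt a
  exact Order.lt_succ_iff.1 (h.trans_eq Cardinal.succ_aleph0.symm)

lemma Om.countable_Iic (a : Om) : (Iic a).Countable := by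
  have h : Iic a = Iio a ∪ {a} := by
    ext x
    simp [le_iff_lt_or_eq]
  rw [h]
  exact (Om.countable_Iio a).union (countable_singleton a)

lemma Om.not_countable : ¬ (univ : Set Om).Countable := by
  intro h
  rw [← Cardinal.le_aleph0_iff_set_countable, Cardinal.mk_univ, Cardinal.mk_ord_toType] at h
  exact absurd h (not_le.2 Cardinal.aleph0_lt_aleph_one)

/-- sequences in `Om` are strictly bounded above -/
lemma Om.exists_gt (f : ℕ → Om) : ∃ b : Om, ∀ n, f n < b := by
  by_contra h
  push Not at h
  apply Om.not_countable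
  have h2 : (univ : Set Om) = ⋃ n, Iic (f n) := by
    ext b
    simp only [mem_univ, mem_iUnion, mem_Iic, true_iff]
    exact h b
  rw [h2]
  exact countable_iUnion fun n => Om.countable_Iic _

namespace Nd

lemma exists_inf (s t : Nd) : ∃ r : Nd, r ≤ s ∧ r ≤ t ∧ ∀ q, q ≤ s → q ≤ t → q ≤ r := by
  classical
  have hne : {x : Om | x = s.len ∨ x = t.len ∨ s.val x ≠ t.val x}.Nonempty := ⟨s.len, Or.inl rfl⟩
  obtain ⟨m, hm, hmin⟩ := WellFounded.has_min (wellFounded_lt (α := Om)) _ hne
  have hmin' : ∀ x < m, x ≠ s.len ∧ x ≠ t.len ∧ s.val x = t.val x := by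
    intro x hx
    have : ¬ (x = s.len ∨ x = t.len ∨ s.val x ≠ t.val x) := fun h => hmin x h hx
    push Not at this
    exact this
  have hms : m ≤ s.len := not_lt.1 fun h => (hmin' _ h).1 rfl
  have hmt : m ≤ t.len := not_lt.1 fun h => (hmin' _ h).2.1 rfl
  refine ⟨⟨m, fun x => if x < m then s.val x else 0, fun x hx => by simp [not_lt.2 hx]⟩,
    ⟨hms, fun x hx => ?_⟩, ⟨hmt, fun x hx => ?_⟩, fun q hqs hqt => ⟨?_, fun x hx => ?_⟩⟩
  · simp only at hx ⊢
    rw [if_pos hx]
  · simp only at hx ⊢
    rw [if_pos hx]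
    exact (hmin' x hx).2.2
  · simp only
    by_contra hc
    push Not at hc
    rcases hm with h | h | h
    · exact absurd (hc.trans_le hqs.1) (by rw [h]; exact lt_irrefl _)
    · exact absurd (hc.trans_le hqt.1) (by rw [h]; exact lt_irrefl _)
    · exact h ((hqs.2 m hc).symm.trans (hqt.2 m hc))
  · have hqm : q.len ≤ m := by
      by_contra hc
      push Not at hc
      rcases hm with h | h | h
      · exact absurd (hc.trans_le hqs.1) (by rw [h]; exact lt_irrefl _)
      · exact absurd (hc.trans_le hqt.1) (by rw [h]; exact lt_irrefl _)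
      · exact h ((hqs.2 m hc).symm.trans (hqt.2 m hc))
    simp only
    rw [if_pos (hx.trans_le hqm)]
    exact hqs.2 x hx

noncomputable instance : SemilatticeInf Nd where
  inf s t := Classical.choose (exists_inf s t)
  inf_le_left s t := (Classical.choose_spec (exists_inf s t)).1
  inf_le_right s t := (Classical.choose_spec (exists_inf s t)).2.1
  le_inf q s t h1 h2 := (Classical.choose_spec (exists_inf s t)).2.2 q h1 h2

lemma eq_of_le_of_len_eq {s s' t : Nd} (h : s ≤ t) (h' : s' ≤ t) (hl : s.len = s'.len) :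
    s = s' := by
  ext x
  · exact hl
  · by_cases hx : x < s.len
    · rw [h.2 x hx, h'.2 x (hl ▸ hx)]
    · rw [s.zero x (not_lt.1 hx), s'.zero x (hl ▸ not_lt.1 hx)]

lemma le_total_of_le {s s' t : Nd} (h : s ≤ t) (h' : s' ≤ t) : s ≤ s' ∨ s' ≤ s := by
  rcases le_total s.len s'.len with hl | hl
  · exact Or.inl ⟨hl, fun x hx => (h.2 x hx).trans (h'.2 x (hx.trans_le hl)).symm⟩
  · exact Or.inr ⟨hl, fun x hx => (h'.2 x hx).trans (h.2 x (hx.trans_le hl)).symm⟩

lemma len_lt_of_lt {s t : Nd} (h : s < t) : s.len < t.len := by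
  rcases lt_or_eq_of_le h.le.1 with h1 | h1
  · exact h1
  · exact absurd (eq_of_le_of_len_eq h.le le_rfl h1) h.ne

lemma countable_Iic (t : Nd) : (Iic t).Countable := by
  have hinj : InjOn (fun s : Nd => s.len) (Iic t) := fun s hs s' hs' hl =>
    eq_of_le_of_len_eq hs hs' hl
  have hmaps : MapsTo (fun s : Nd => s.len) (Iic t) (Iic t.len) := fun s hs => hs.1
  exact hmaps.countable_of_injOn hinj (Om.countable_Iic t.len)

/-- increasing sequences have an upper bound -/
lemma exists_upper (t : ℕ → Nd) (ht : ∀ n, t n ≤ t (n + 1)) : ∃ u : Nd, ∀ n, t n ≤ u := by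
  classical
  have hmono : Monotone t := monotone_nat_of_le_succ ht
  obtain ⟨b, hb⟩ := Om.exists_gt fun n => (t n).len
  have key : ∀ n m x, x < (t n).len → x < (t m).len → (t n).val x = (t m).val x := by
    intro n m x hn hm
    rcases le_total n m with h | h
    · exact (hmono h).2 x hn
    · exact ((hmono h).2 x hm).symm
  refine ⟨⟨b, fun x => if h : ∃ n, x < (t n).len then (t (Classical.choose h)).val x else 0, ?_⟩,
    fun n => ⟨(hb n).le, fun x hx => ?_⟩⟩
  · intro x hx
    have : ¬ ∃ n, x < (t n).len := by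
      rintro ⟨n, hn⟩
      exact absurd ((hn.trans (hb n)).trans_le hx) (lt_irrefl _)
    rw [dif_neg this]
  · have h : ∃ n, x < (t n).len := ⟨n, hx⟩
    simp only
    rw [dif_pos h]
    exact key _ _ _ hx (Classical.choose_spec h)

/-- a length above the length of `t` -/
noncomputable def up (t : Nd) : Om := Classical.choose (Om.exists_gt fun _ => t.len)

lemma lt_up (t : Nd) : t.len < t.up := Classical.choose_spec (Om.exists_gt fun _ => t.len) 0

open Classical in
/-- nodes above `t` -/
noncomputable def suc (t : Nd) (i : ℕ) : Nd where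
  len := t.up
  val x := if x < t.len then t.val x else if x = t.len then i else 0
  zero x hx := by
    have h : t.len < x := t.lt_up.trans_le hx
    rw [if_neg (not_lt.2 h.le), if_neg h.ne']

lemma suc_val_len (t : Nd) (i : ℕ) : (t.suc i).val t.len = i := by
  simp [suc]

lemma le_suc (t : Nd) (i : ℕ) : t ≤ t.suc i := by
  refine ⟨t.lt_up.le, fun x hx => ?_⟩
  simp [suc, hx]

lemma lt_suc (t : Nd) (i : ℕ) : t < t.suc i := by
  refine lt_of_le_of_ne (t.le_suc i) fun h => ?_
  have : t.len = t.up := congrArg Nd.len h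
  exact t.lt_up.ne this

/-- a node `v > t` comparable with `t.suc i` has `v.val t.len = i` -/
lemma val_of_lt_of_le_suc {t v : Nd} {i : ℕ} (h : t < v) (h' : v ≤ t.suc i) :
    v.val t.len = i := by
  rw [h'.2 _ (len_lt_of_lt h), suc_val_len]

lemma val_of_suc_le {t v : Nd} {i : ℕ} (h : t.suc i ≤ v) : v.val t.len = i := by
  rw [← h.2 _ t.lt_up, suc_val_len]

end Nd

end Pool.Agent.LUR
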