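import Pool.Agent.Helper96.LUR.Defs

/-!
# Troyanski-Zizler type decomposition lemma
-/

set_option autoImplicit false

open Filter Topology Set

namespace Pool.Agent.LUR

namespace Troy

variable {X : Type*} [NormedAddCommGroup X] [NormedSpace ℝ X] {I : Type*}

/-- the remainder after subtracting the sum over `B` -/
noncomputable def L (R : I → X →ₗ[ℝ] X) (B : Finset I) : X →ₗ[ℝ] X := LinearMap.id - ∑ i ∈ B, R i

lemma rem_apply (R : I → X →ₗ[ℝ] X) (B : Finset I) (x : X) : L R B x = x - ∑ i ∈ B, R i x := by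
  simp [L]

/-- the local functions -/
noncomputable def phi (F : I → X → ℝ) (R : I → X →ₗ[ℝ] X) (k : ℕ) (A : Finset I) (x : X) : ℝ :=
  ∑ i ∈ A, F i x + (1 / 2 : ℝ) ^ k * ∑ B ∈ A.powerset, ‖L R B x‖ ^ 2

variable {F : I → X → ℝ} {R : I → X →ₗ[ℝ] X}

lemma QF_phi (hF : ∀ i, QF (F i)) (k : ℕ) (A : Finset I) : QF (phi F R k A) :=
  (QF.sum A F fun i _ => hF i).add'
    ((QF.sum A.powerset (fun B x => ‖L R B x‖ ^ 2) fun B _ => QF_norm_sq_comp (L R B)).const_mul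
      (by positivity))

lemma defect_phi (k : ℕ) (A : Finset I) (x y : X) : defect (phi F R k A) x y =
    ∑ i ∈ A, defect (F i) x y +
      (1 / 2 : ℝ) ^ k * ∑ B ∈ A.powerset, defect (fun z => ‖L R B z‖ ^ 2) x y := by
  simp only [defect, phi, Finset.sum_sub_distrib, Finset.sum_add_distrib, ← Finset.mul_sum]
  ring

lemma le_defect_phi (hF : ∀ i, QF (F i)) (k : ℕ) {A : Finset I} {i : I} (hi : i ∈ A) (x y : X) :
    1 * defect (F i) x y ≤ defect (phi F R k A) x y := by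
  rw [defect_phi, one_mul]
  have h1 : defect (F i) x y ≤ ∑ i ∈ A, defect (F i) x y :=
    Finset.single_le_sum (f := fun i => defect (F i) x y)
      (fun j _ => (hF j).defect_nonneg x y) hi
  have h2 : 0 ≤ ∑ B ∈ A.powerset, defect (fun z => ‖L R B z‖ ^ 2) x y :=
    Finset.sum_nonneg fun B _ => (QF_norm_sq_comp (L R B)).defect_nonneg x y
  have h3 : 0 ≤ (1 / 2 : ℝ) ^ k * ∑ B ∈ A.powerset, defect (fun z => ‖L R B z‖ ^ 2) x y :=
    mul_nonneg (by positivity) h2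
  linarith

lemma le_defect_phi' (hF : ∀ i, QF (F i)) (k : ℕ) {A B : Finset I} (hB : B ⊆ A) (x y : X) :
    (1 / 2 : ℝ) ^ k * defect (fun z => ‖L R B z‖ ^ 2) x y ≤ defect (phi F R k A) x y := by
  rw [defect_phi]
  have h1 : 0 ≤ ∑ i ∈ A, defect (F i) x y :=
    Finset.sum_nonneg fun j _ => (hF j).defect_nonneg x y
  have h2 : defect (fun z => ‖L R B z‖ ^ 2) x y ≤
      ∑ B ∈ A.powerset, defect (fun z => ‖L R B z‖ ^ 2) x y :=
    Finset.single_le_sum (f := fun B => defect (fun z => ‖L R B z‖ ^ 2) x y)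
      (fun B _ => (QF_norm_sq_comp (L R B)).defect_nonneg x y) (Finset.mem_powerset.2 hB)
  have h3 := mul_le_mul_of_nonneg_left h2 (show (0 : ℝ) ≤ (1 / 2 : ℝ) ^ k by positivity)
  linarith

lemma norm_L_le {K : ℝ} (hK : 0 ≤ K) (hR : ∀ i x, ‖R i x‖ ≤ K * ‖x‖) {m : ℕ} {B : Finset I}
    (hB : B.card ≤ m) (x : X) : ‖L R B x‖ ≤ (1 + m * K) * ‖x‖ := by
  rw [rem_apply]
  have h1 : ‖∑ i ∈ B, R i x‖ ≤ B.card * (K * ‖x‖) := by
    refine (norm_sum_le _ _).trans ?_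
    rw [← nsmul_eq_mul]
    exact Finset.sum_le_card_nsmul _ _ _ fun i _ => hR i x
  have h2 : (B.card : ℝ) * (K * ‖x‖) ≤ m * (K * ‖x‖) := by
    have : (B.card : ℝ) ≤ m := by exact_mod_cast hB
    exact mul_le_mul_of_nonneg_right this (by positivity)
  have h3 := norm_sub_le x (∑ i ∈ B, R i x)
  linarith

lemma sum_L_le {K : ℝ} (hK : 0 ≤ K) (hR : ∀ i x, ‖R i x‖ ≤ K * ‖x‖) {m : ℕ} {A : Finset I}
    (hA : A.card ≤ m) (x : X) :
    ∑ B ∈ A.powerset, ‖L R B x‖ ^ 2 ≤ 2 ^ m * (1 + m * K) ^ 2 * ‖x‖ ^ 2 := by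
  have h1 : ∑ B ∈ A.powerset, ‖L R B x‖ ^ 2 ≤ A.powerset.card • (((1 + m * K) * ‖x‖) ^ 2) := by
    refine Finset.sum_le_card_nsmul _ _ _ fun B hB => ?_
    exact pow_le_pow_left₀ (norm_nonneg _)
      (norm_L_le hK hR ((Finset.card_le_card (Finset.mem_powerset.1 hB)).trans hA) x) 2
  refine h1.trans ?_
  rw [Finset.card_powerset, nsmul_eq_mul, mul_pow]
  push_cast
  have h2 : (2 : ℝ) ^ A.card ≤ 2 ^ m := pow_le_pow_right₀ (by norm_num) hA
  calc (2 : ℝ) ^ A.card * ((1 + m * K) ^ 2 * ‖x‖ ^ 2)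
      ≤ 2 ^ m * ((1 + m * K) ^ 2 * ‖x‖ ^ 2) := mul_le_mul_of_nonneg_right h2 (by positivity)
    _ = 2 ^ m * (1 + m * K) ^ 2 * ‖x‖ ^ 2 := by ring

lemma phi_le {K : ℝ} (hK : 0 ≤ K) (hFK : ∀ i x, F i x ≤ K * ‖x‖ ^ 2)
    (hR : ∀ i x, ‖R i x‖ ≤ K * ‖x‖) {m : ℕ} (k : ℕ) {A : Finset I} (hA : A.card ≤ m) (x : X) :
    phi F R k A x ≤ (m * K + 2 ^ m * (1 + m * K) ^ 2) * ‖x‖ ^ 2 := by
  have h1 : ∑ i ∈ A, F i x ≤ m * (K * ‖x‖ ^ 2) := by
    have h : ∑ i ∈ A, F i x ≤ A.card • (K * ‖x‖ ^ 2) :=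
      Finset.sum_le_card_nsmul _ _ _ fun i _ => hFK i x
    rw [nsmul_eq_mul] at h
    refine h.trans (mul_le_mul_of_nonneg_right (by exact_mod_cast hA) (by positivity))
  have h2 := sum_L_le hK hR hA x
  have h3 : (1 / 2 : ℝ) ^ k * ∑ B ∈ A.powerset, ‖L R B x‖ ^ 2 ≤
      1 * ∑ B ∈ A.powerset, ‖L R B x‖ ^ 2 :=
    mul_le_mul_of_nonneg_right (pow_le_one₀ (by norm_num) (by norm_num))
      (Finset.sum_nonneg fun B _ => sq_nonneg _)
  unfold phi
  nlinarith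

/-- a finite family of positive numbers has a positive lower bound -/
lemma exists_lb {J : Type*} (s : Finset J) (f : J → ℝ) (hf : ∀ i ∈ s, 0 < f i) :
    ∃ δ > 0, ∀ i ∈ s, δ ≤ f i := by
  classical
  induction s using Finset.induction_on with
  | empty => exact ⟨1, one_pos, by simp⟩
  | insert a s ha ih =>
    obtain ⟨δ, h1, h2⟩ := ih fun i hi => hf i (Finset.mem_insert_of_mem hi)
    refine ⟨min δ (f a), lt_min h1 (hf a (Finset.mem_insert_self _ _)), ?_⟩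
    intro i hi
    rcases Finset.mem_insert.1 hi with rfl | hi
    · exact min_le_right _ _
    · exact (min_le_left _ _).trans (h2 i hi)

omit [NormedAddCommGroup X] [NormedSpace ℝ X] in
/-- the level set is the unique maximiser, with a gap -/
lemma gap {x : X} {δ g : ℝ} {S : Finset I} (hg : 0 < g) (hgδ : g ≤ δ)
    (hS : ∀ i ∈ S, δ ≤ F i x) (hS' : ∀ i ∉ S, F i x ≤ δ - g) {A : Finset I}
    (hA : A.card ≤ S.card) (hne : A ≠ S) : ∑ i ∈ A, F i x ≤ ∑ i ∈ S, F i x - g := by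
  classical
  have e1 := Finset.sum_inter_add_sum_sdiff A S (fun i => F i x)
  have e2 := Finset.sum_inter_add_sum_sdiff S A (fun i => F i x)
  rw [Finset.inter_comm S A] at e2
  have h1 : ∑ i ∈ A \ S, F i x ≤ (A \ S).card • (δ - g) :=
    Finset.sum_le_card_nsmul _ _ _ fun i hi => hS' i (Finset.mem_sdiff.1 hi).2
  have h2 : (S \ A).card • δ ≤ ∑ i ∈ S \ A, F i x :=
    Finset.card_nsmul_le_sum _ _ _ fun i hi => hS i (Finset.mem_sdiff.1 hi).1
  rw [nsmul_eq_mul] at h1 h2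
  have c1 : (A \ S).card ≤ (S \ A).card := by
    have := Finset.card_sdiff_add_card_inter A S
    have := Finset.card_sdiff_add_card_inter S A
    rw [Finset.inter_comm S A] at this
    omega
  have c2 : 1 ≤ (S \ A).card := by
    rw [Nat.one_le_iff_ne_zero, Ne, Finset.card_eq_zero, Finset.sdiff_eq_empty_iff_subset]
    intro h
    exact hne (Finset.eq_of_subset_of_card_le h hA).symm
  have c1' : ((A \ S).card : ℝ) ≤ (S \ A).card := by exact_mod_cast c1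
  have c2' : (1 : ℝ) ≤ (S \ A).card := by exact_mod_cast c2
  have h3 : ((A \ S).card : ℝ) * (δ - g) ≤ (S \ A).card * (δ - g) :=
    mul_le_mul_of_nonneg_right c1' (by linarith)
  have h4 : g ≤ ((S \ A).card : ℝ) * g := le_mul_of_one_le_left hg.le c2'
  nlinarith

end Troy

open Troy in
/-- Troyanski-Zizler type lemma. -/
theorem LURn_of_decomp {X : Type*} [NormedAddCommGroup X] [NormedSpace ℝ X] {I : Type*}
    (F : I → X → ℝ) (R : I → X →ₗ[ℝ] X) (M : ℝ)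
    (hF : ∀ i, QF (F i)) (hFM : ∀ i x, F i x ≤ M * ‖x‖ ^ 2) (hR : ∀ i x, ‖R i x‖ ≤ M * ‖x‖)
    (hRF : ∀ i, ∃ C : ℝ, ∀ x, ‖R i x‖ ^ 2 ≤ C * F i x)
    (hc0 : ∀ x, ∀ δ > 0, {i | δ ≤ F i x}.Finite)
    (hLUR : ∀ i, LURF (F i))
    (happ : ∀ x, ∀ ε > 0, ∃ B : Finset I, ‖x - ∑ i ∈ B, R i x‖ < ε) : LURn X := by
  classical
  set K := |M| with hKdef
  have hK : 0 ≤ K := abs_nonneg M
  have hFK : ∀ i x, F i x ≤ K * ‖x‖ ^ 2 := fun i x =>
    (hFM i x).trans (mul_le_mul_of_nonneg_right (le_abs_self M) (sq_nonneg _))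
  have hRK : ∀ i x, ‖R i x‖ ≤ K * ‖x‖ := fun i x =>
    (hR i x).trans (mul_le_mul_of_nonneg_right (le_abs_self M) (norm_nonneg _))
  choose Cr hCr using hRF
  -- the countable family
  let J : ℕ → Type _ := fun m => {A : Finset I // A.card ≤ m}
  have : ∀ m, Nonempty (J m) := fun m => ⟨⟨∅, by simp⟩⟩
  let G : ℕ × ℕ → X → ℝ := fun q x => ⨆ A : J q.1, phi F R q.2 A.1 x
  have hbd : ∀ (q : ℕ × ℕ) (x : X), BddAbove (range fun A : J q.1 => phi F R q.2 A.1 x) := by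
    intro q x
    refine ⟨(q.1 * K + 2 ^ q.1 * (1 + q.1 * K) ^ 2) * ‖x‖ ^ 2, ?_⟩
    rintro _ ⟨A, rfl⟩
    exact phi_le hK hFK hRK q.2 A.2 x
  have hG : ∀ q, QF (G q) := fun q => QF.iSup _ (fun A => QF_phi hF q.2 A.1) (hbd q)
  have hGb : ∀ q, ∃ K' : ℝ, ∀ x, G q x ≤ K' * ‖x‖ ^ 2 := fun q =>
    ⟨_, fun x => ciSup_le fun A => phi_le hK hFK hRK q.2 A.2 x⟩
  obtain ⟨F₀, hF₀, ⟨c, C, hc, hC, hb⟩, -, hdef⟩ := exists_comb G hG hGb
  refine ⟨F₀, hF₀, ⟨c, C, hc, hC, hb⟩, ?_⟩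
  intro x l hl
  -- it suffices to show norm convergence
  suffices hmain : Tendsto (fun y => ‖y - x‖) l (𝓝 0) by
    have h1 : Tendsto (fun y => C * ‖y - x‖ ^ 2) l (𝓝 0) := by
      have := (hmain.pow 2).const_mul C
      simpa using this
    exact squeeze_zero (fun y => hF₀.nonneg _) (fun y => (hb (y - x)).2) h1
  rw [Metric.tendsto_nhds]
  intro ε' hε'
  set ε := ε' / 3 with hεdef
  have hε : 0 < ε := by positivity
  -- approximation
  obtain ⟨B', hB'⟩ := happ x ε hε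
  set B := B'.filter fun i => F i x ≠ 0 with hBdef
  have hR0 : ∀ i, F i x = 0 → R i x = 0 := by
    intro i hi
    have := hCr i x
    rw [hi, mul_zero] at this
    have h2 : ‖R i x‖ = 0 := by
      have h3 := sq_nonneg ‖R i x‖
      exact pow_eq_zero_iff (two_ne_zero) |>.1 (le_antisymm this h3)
    exact norm_eq_zero.1 h2
  have hBx : ‖L R B x‖ < ε := by
    rw [rem_apply, hBdef, Finset.sum_filter_of_ne]
    · exact hB'
    · intro i _ hi h0
      exact hi (hR0 i h0)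
  have hBpos : ∀ i ∈ B, 0 < F i x := fun i hi =>
    lt_of_le_of_ne ((hF i).nonneg x) (Ne.symm (Finset.mem_filter.1 hi).2)
  obtain ⟨δ, hδ, hδB⟩ := exists_lb B (fun i => F i x) hBpos
  set S := (hc0 x δ hδ).toFinset with hSdef
  have hBS : B ⊆ S := fun i hi => by
    rw [hSdef, Set.Finite.mem_toFinset]
    exact hδB i hi
  have hS1 : ∀ i ∈ S, δ ≤ F i x := fun i hi => by
    rw [hSdef, Set.Finite.mem_toFinset] at hi
    exact hi
  have hS2 : ∀ i ∉ S, F i x < δ := fun i hi => by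
    rw [hSdef, Set.Finite.mem_toFinset] at hi
    exact not_le.1 hi
  obtain ⟨g', hg', hgap⟩ := exists_lb ((hc0 x (δ / 2) (by positivity)).toFinset \ S)
    (fun i => δ - F i x) (fun i hi => sub_pos.2 (hS2 i (Finset.mem_sdiff.1 hi).2))
  set g := min g' (δ / 2) with hgdef
  have hg : 0 < g := lt_min hg' (by positivity)
  have hgδ : g ≤ δ := (min_le_right _ _).trans (by linarith)
  have hS3 : ∀ i ∉ S, F i x ≤ δ - g := by
    intro i hi
    by_cases h : δ / 2 ≤ F i x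
    · have := hgap i (Finset.mem_sdiff.2 ⟨(Set.Finite.mem_toFinset _).2 h, hi⟩)
      have h2 : g ≤ g' := min_le_left _ _
      linarith
    · have h2 : g ≤ δ / 2 := min_le_right _ _
      linarith [not_le.1 h]
  set m := S.card with hm
  -- choice of k
  set W := 2 ^ m * (1 + m * K) ^ 2 * ‖x‖ ^ 2 with hW
  have hW0 : 0 ≤ W := by positivity
  obtain ⟨k, hk⟩ : ∃ k : ℕ, (1 / 2 : ℝ) ^ k * W ≤ g / 2 := by
    obtain ⟨k, hk⟩ := exists_pow_lt_of_lt_one (show 0 < g / 2 / (W + 1) by positivity)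
      (show (1 / 2 : ℝ) < 1 by norm_num)
    refine ⟨k, ?_⟩
    rw [lt_div_iff₀ (by positivity)] at hk
    have : (0 : ℝ) ≤ (1 / 2 : ℝ) ^ k := by positivity
    nlinarith
  have hmax : ∀ A : J m, A.1 ≠ S → phi F R k A.1 x ≤ G (m, k) x - g / 2 := by
    intro A hA
    have h1 := gap hg hgδ hS1 hS3 A.2 hA
    have h2 := sum_L_le hK hRK A.2 x
    have h3 : (1 / 2 : ℝ) ^ k * ∑ B ∈ A.1.powerset, ‖L R B x‖ ^ 2 ≤ (1 / 2 : ℝ) ^ k * W :=
      mul_le_mul_of_nonneg_left h2 (by positivity)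
    have h4 : ∑ i ∈ S, F i x ≤ phi F R k S x := by
      unfold phi
      have : 0 ≤ (1 / 2 : ℝ) ^ k * ∑ B ∈ S.powerset, ‖L R B x‖ ^ 2 := by positivity
      linarith
    have h5 : phi F R k S x ≤ G (m, k) x := le_ciSup (hbd (m, k) x) (⟨S, le_rfl⟩ : J m)
    have h6 : phi F R k A.1 x = ∑ i ∈ A.1, F i x +
      (1 / 2 : ℝ) ^ k * ∑ B ∈ A.1.powerset, ‖L R B x‖ ^ 2 := rfl
    linarith
  -- the defect of phi S
  have hdG : Tendsto (fun y => defect (G (m, k)) x y) l (𝓝 0) := by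
    obtain ⟨c', hc', h'⟩ := hdef (m, k)
    exact tendsto_defect_of_le (hG (m, k)) hc' h' hl
  have hdS : Tendsto (fun y => defect (phi F R k S) x y) l (𝓝 0) := by
    rw [Metric.tendsto_nhds]
    intro η hη
    set η' := min η g with hη'
    have hη'0 : 0 < η' := lt_min hη hg
    have h1 : ∀ᶠ y in l, defect (G (m, k)) x y < η' / 2 :=
      hdG.eventually (gt_mem_nhds (by positivity))
    filter_upwards [h1] with y hy
    have hlt : G (m, k) (x + y) - η' / 2 < ⨆ A : J m, phi F R k A.1 (x + y) := by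
      have : G (m, k) (x + y) = ⨆ A : J m, phi F R k A.1 (x + y) := rfl
      rw [← this]
      linarith
    obtain ⟨A, hA⟩ := exists_lt_of_lt_ciSup hlt
    have h2 : phi F R k A.1 x ≤ G (m, k) x := le_ciSup (hbd (m, k) x) A
    have h3 : phi F R k A.1 y ≤ G (m, k) y := le_ciSup (hbd (m, k) y) A
    have h4 := (QF_phi (R := R) hF k A.1).defect_nonneg x y
    have h5 : defect (phi F R k A.1) x y + 2 * (G (m, k) x - phi F R k A.1 x) +
        2 * (G (m, k) y - phi F R k A.1 y) < η' := by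
      unfold defect at hy ⊢
      linarith
    have h6 : A.1 = S := by
      by_contra hne
      have := hmax A hne
      have h7 : η' ≤ g := min_le_right _ _
      linarith
    rw [h6] at h5 h4 h2 h3
    rw [Real.dist_eq, sub_zero, abs_of_nonneg h4]
    have h7 : η' ≤ η := min_le_left _ _
    linarith
  -- consequences
  have hi : ∀ i ∈ B, Tendsto (fun y => ‖R i (y - x)‖) l (𝓝 0) := by
    intro i hi
    have h1 : Tendsto (fun y => defect (F i) x y) l (𝓝 0) :=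
      tendsto_defect_of_le (hF i) one_pos (le_defect_phi hF k (hBS hi)) hdS
    have h2 := (hLUR i x l h1).const_mul (Cr i)
    rw [mul_zero] at h2
    have h3 : Tendsto (fun y => ‖R i (y - x)‖ ^ 2) l (𝓝 0) :=
      squeeze_zero (fun y => sq_nonneg _) (fun y => hCr i (y - x)) h2
    have h4 := (Real.continuous_sqrt.tendsto 0).comp h3
    rw [Real.sqrt_zero] at h4
    refine h4.congr fun y => ?_
    simp [Real.sqrt_sq (norm_nonneg _)]
  have hsum : Tendsto (fun y => ∑ i ∈ B, ‖R i (y - x)‖) l (𝓝 0) := by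
    have := tendsto_finsetSum B hi
    simpa using this
  have hLy : Tendsto (fun y => ‖L R B y‖ ^ 2) l (𝓝 (‖L R B x‖ ^ 2)) := by
    refine QF.tendsto_of_defect (QF_norm_sq_comp (L R B)) ?_
    exact tendsto_defect_of_le (QF_norm_sq_comp (L R B)) (by positivity)
      (le_defect_phi' hF k hBS) hdS
  have hLy' : ∀ᶠ y in l, ‖L R B y‖ ^ 2 < ε ^ 2 :=
    hLy.eventually (gt_mem_nhds (pow_lt_pow_left₀ hBx (norm_nonneg _) two_ne_zero))
  have hsum' : ∀ᶠ y in l, ∑ i ∈ B, ‖R i (y - x)‖ < ε := hsum.eventually (gt_mem_nhds hε)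
  filter_upwards [hLy', hsum'] with y hy1 hy2
  rw [Real.dist_eq, sub_zero, abs_of_nonneg (norm_nonneg _)]
  have h1 : ‖L R B y‖ < ε := lt_of_pow_lt_pow_left₀ 2 hε.le hy1
  have h2 : y - x = L R B y - L R B x + ∑ i ∈ B, R i (y - x) := by
    simp only [rem_apply, map_sub, Finset.sum_sub_distrib]
    abel
  have h3 : ‖y - x‖ ≤ ‖L R B y‖ + ‖L R B x‖ + ∑ i ∈ B, ‖R i (y - x)‖ := by
    calc ‖y - x‖ = ‖L R B y - L R B x + ∑ i ∈ B, R i (y - x)‖ := by rw [← h2]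
      _ ≤ ‖L R B y - L R B x‖ + ‖∑ i ∈ B, R i (y - x)‖ := norm_add_le _ _
      _ ≤ ‖L R B y‖ + ‖L R B x‖ + ∑ i ∈ B, ‖R i (y - x)‖ :=
          add_le_add (norm_sub_le _ _) (norm_sum_le _ _)
  linarith

end Pool.Agent.LUR
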